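import Pool.Agent.NH52.SF.NearT
import Pool.Agent.R932.SQ.Ex

/-!
# Families in the Lie algebra of a form without isotropic relations
-/

set_option autoImplicit false
set_option linter.unusedSectionVars false

open Matrix Polynomial Filter Topology
open Pool.Agent.Y142.ZS
open Pool.Agent.Y331.ZD (exists_mu exists_bd norm_map)
open Pool.Agent.R932.SQ (NoRel exists_noRel)

namespace Pool.Agent.NH52.SF

variable {ℓ : ℕ} [hℓ : Fact ℓ.Prime]

theorem charpoly_smul {N : ℕ} (M : Matrix (Fin N) (Fin N) ℚ_[ℓ]) {a : ℚ_[ℓ]} (ha : a ≠ 0) :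
    (a • M).charpoly = M.charpoly.scaleRoots a := by
  refine Polynomial.funext fun t => ?_
  have h1 : t = t / a * a := by rw [div_mul_cancel₀ _ ha]
  have h2 : (scalar (Fin N)) t - a • M = a • ((scalar (Fin N)) (t / a) - M) := by
    rw [smul_sub]
    congr 1
    ext i j
    by_cases hij : i = j
    · subst hij
      simp only [scalar_apply, diagonal_apply_eq, Matrix.smul_apply, smul_eq_mul]
      rw [mul_div_cancel₀ _ ha]
    · simp only [scalar_apply, diagonal_apply_ne _ hij, Matrix.smul_apply, smul_zero]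
  rw [eval_charpoly, h2, det_smul, ← eval_charpoly]
  conv_rhs => rw [h1, mul_comm (t / a) a, scaleRoots_eval_mul]
  rw [Fintype.card_fin, charpoly_natDegree_eq_dim, Fintype.card_fin]

theorem roots_smul {N : ℕ} (M : Matrix (Fin N) (Fin N) ℚ_[ℓ]) {a : ℚ_[ℓ]} (ha : a ≠ 0) :
    ((a • M).charpoly.map (algebraMap ℚ_[ℓ] (Lb ℓ))).roots =
      (M.charpoly.map (algebraMap ℚ_[ℓ] (Lb ℓ))).roots.map
        fun z => algebraMap ℚ_[ℓ] (Lb ℓ) a * z := by
  have ha' : algebraMap ℚ_[ℓ] (Lb ℓ) a ≠ 0 := (_root_.map_ne_zero _).2 ha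
  rw [charpoly_smul M ha, map_scaleRoots _ _ _ (by
    rw [(charpoly_monic M).leadingCoeff, map_one]
    exact one_ne_zero), roots_scaleRoots _ ha'.isUnit]

theorem mem_roots' {R : ℚ_[ℓ][X]} (hR : R.Monic) {t : Lb ℓ} :
    aeval t R = 0 ↔ t ∈ (R.map (algebraMap ℚ_[ℓ] (Lb ℓ))).roots := by
  rw [mem_roots (hR.map _).ne_zero, IsRoot, eval_map, ← aeval_def]

/-- **families without isotropic relations** -/
theorem exists_fam {ι : Type} [Fintype ι] {N : ℕ} {J : Matrix (Fin N) (Fin N) ℚ_[ℓ]}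
    (hJ : Jᵀ = J ∨ Jᵀ = -J) (hdet : J.det ≠ 0) :
    ∃ X : ι → Matrix (Fin N) (Fin N) ℚ_[ℓ], (∀ q, (X q)ᵀ * J + J * X q = 0) ∧
      NoRelT (fun q => (X q).charpoly) 0 := by
  classical
  obtain ⟨X₀, hX₀, hsep, hno⟩ := exists_noRel hJ hdet
  set i : ℚ_[ℓ] →+* Lb ℓ := algebraMap ℚ_[ℓ] (Lb ℓ) with hi
  have hnorm : ∀ x : ℚ_[ℓ], ‖i x‖ = ‖x‖ := norm_map
  set D : Type := {r : Lb ℓ // r ∈ (X₀.charpoly.map i).roots.toFinset} with hD
  obtain ⟨μ, hμ0, -, hμ⟩ := exists_mu (fun I : Finset D => ‖∑ t ∈ I, t.1‖)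
    (fun I => ∑ t ∈ I, t.1 ≠ 0) (fun I hI => norm_pos_iff.2 hI)
  obtain ⟨M, hM1, hM⟩ := exists_bd (fun I : Finset D => ‖∑ t ∈ I, t.1‖)
  have hM0 : 0 < M := by linarith
  have hℓ1 : (1 : ℝ) < ℓ := by exact_mod_cast hℓ.out.one_lt
  have hinv1 : (ℓ : ℝ)⁻¹ < 1 := inv_lt_one_of_one_lt₀ hℓ1
  have hinv0 : 0 < (ℓ : ℝ)⁻¹ := inv_pos.2 (by linarith)
  obtain ⟨m, hm⟩ := exists_pow_lt_of_lt_one (show 0 < μ / M by positivity) hinv1
  let idx : ι ≃ Fin (Fintype.card ι) := Fintype.equivFin ι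
  let a : ι → ℚ_[ℓ] := fun q => (ℓ : ℚ_[ℓ]) ^ (m * (idx q : ℕ))
  have ha0 : ∀ q, a q ≠ 0 := fun q => pow_ne_zero _ (by exact_mod_cast hℓ.out.ne_zero)
  have hia0 : ∀ q, i (a q) ≠ 0 := fun q => (_root_.map_ne_zero _).2 (ha0 q)
  have hanorm : ∀ q, ‖i (a q)‖ = ((ℓ : ℝ)⁻¹ ^ m) ^ (idx q : ℕ) := by
    intro q
    rw [hnorm, norm_pow, Padic.norm_p, ← pow_mul]
  refine ⟨fun q => a q • X₀, fun q => ?_, fun q => ?_, ?_⟩
  · rw [transpose_smul, Matrix.smul_mul, Matrix.mul_smul, ← smul_add]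
    have h1 : X₀ᵀ * J + J * X₀ = 0 := hX₀
    rw [h1, smul_zero]
  · have h1 : (X₀.charpoly.map i).roots.Nodup := nodup_roots hsep.map
    have h2 : ((a q • X₀).charpoly.map i).roots.Nodup := by
      rw [hi, roots_smul X₀ (ha0 q)]
      exact h1.map (mul_right_injective₀ (hia0 q))
    exact (nodup_aroots_iff_of_splits (charpoly_monic _).ne_zero (IsAlgClosed.splits _)).1 h2
  · intro I hne hI
    rw [map_zero, mul_zero]
    refine mul_ne_zero (by norm_num) ?_
    -- the sets of roots of `X₀`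
    let I' : ι → Finset (Lb ℓ) := fun q => (I q).image fun t => t / i (a q)
    have hinj : ∀ q, Set.InjOn (fun t : Lb ℓ => t / i (a q)) (I q) := fun q x _ y _ h =>
      (div_left_inj' (hia0 q)).1 h
    have hsum : ∀ q, ∑ t ∈ I q, t = i (a q) * ∑ t ∈ I' q, t := by
      intro q
      rw [Finset.sum_image (hinj q), Finset.mul_sum]
      refine Finset.sum_congr rfl fun t _ => ?_
      rw [mul_div_cancel₀ _ (hia0 q)]
    have hI' : ∀ q, ∀ t ∈ I' q, aeval t X₀.charpoly = 0 ∧ i 0 - t ∉ I' q := by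
      intro q t ht
      obtain ⟨x, hx, rfl⟩ := Finset.mem_image.1 ht
      obtain ⟨h1, h2⟩ := hI q x hx
      constructor
      · rw [mem_roots' (charpoly_monic _)] at h1 ⊢
        rw [roots_smul X₀ (ha0 q)] at h1
        obtain ⟨y, hy, hyx⟩ := Multiset.mem_map.1 h1
        rw [← hyx]
        show i (a q) * y / i (a q) ∈ _
        rw [mul_div_cancel_left₀ _ (hia0 q)]
        exact hy
      · intro h3
        obtain ⟨y, hy, hyx⟩ := Finset.mem_image.1 h3
        apply h2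
        have h4 : y = algebraMap ℚ_[ℓ] (Lb ℓ) 0 - x := by
          have h5 : y / i (a q) = (i 0 - x) / i (a q) := by
            rw [hyx, map_zero, zero_sub, zero_sub, neg_div]
          exact (div_left_inj' (hia0 q)).1 h5
        rw [← h4]
        exact hy
    have hne' : ∀ q, (I q).Nonempty → ∑ t ∈ I' q, t ≠ 0 := by
      intro q hq h0
      have h1 := hno (I' q) (hq.image _) (hI' q)
      apply h1
      rw [h0, map_zero, mul_zero, mul_zero]
    have hfin : ∀ q, ∃ K : Finset D, ∑ t ∈ I' q, t = ∑ t ∈ K, t.1 := by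
      intro q
      refine ⟨Finset.univ.filter fun j => j.1 ∈ I' q, ?_⟩
      have h9 : (Finset.univ.filter fun j : D => j.1 ∈ I' q).image (fun j : D => j.1) = I' q := by
        ext t
        rw [Finset.mem_image]
        constructor
        · rintro ⟨j, hj, rfl⟩
          exact (Finset.mem_filter.1 hj).2
        · intro ht
          refine ⟨⟨t, ?_⟩, Finset.mem_filter.2 ⟨Finset.mem_univ _, ht⟩, rfl⟩
          rw [Multiset.mem_toFinset]
          exact (mem_roots' (charpoly_monic _)).1 (hI' q t ht).1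
      rw [← Finset.sum_image (f := fun t => t) (g := fun j : D => j.1)
        (fun x _ y _ h => Subtype.ext h), h9]
    -- the leading term
    obtain ⟨q₀, hq₀, hmin⟩ := (Finset.univ.filter fun q => (I q).Nonempty).exists_min_image
      (fun q => (idx q : ℕ)) (by
        obtain ⟨q, hq⟩ := hne
        exact ⟨q, Finset.mem_filter.2 ⟨Finset.mem_univ q, hq⟩⟩)
    have hq₀' : (I q₀).Nonempty := (Finset.mem_filter.1 hq₀).2
    have hlow : ‖i (a q₀)‖ * μ ≤ ‖∑ t ∈ I q₀, t‖ := by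
      rw [hsum, norm_mul]
      obtain ⟨K, hK⟩ := hfin q₀
      have h1 := hμ K (by rw [← hK]; exact hne' q₀ hq₀')
      rw [← hK] at h1
      exact mul_le_mul_of_nonneg_left h1 (norm_nonneg _)
    have hhigh : ∀ q, q ≠ q₀ → ‖∑ t ∈ I q, t‖ < ‖i (a q₀)‖ * μ := by
      intro q hq
      have hpos : 0 < ‖i (a q₀)‖ * μ := mul_pos (norm_pos_iff.2 (hia0 q₀)) hμ0
      by_cases hIq : (I q).Nonempty
      · have h1 := hmin q (Finset.mem_filter.2 ⟨Finset.mem_univ q, hIq⟩)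
        have h2 : (idx q₀ : ℕ) < (idx q : ℕ) := by
          refine lt_of_le_of_ne h1 fun h => hq ?_
          exact (idx.injective (Fin.ext h)).symm
        rw [hsum, norm_mul]
        obtain ⟨K, hK⟩ := hfin q
        have h3 := hM K
        rw [← hK] at h3
        have h4 : ‖i (a q)‖ ≤ ‖i (a q₀)‖ * (ℓ : ℝ)⁻¹ ^ m := by
          rw [hanorm, hanorm, ← pow_succ]
          refine pow_le_pow_of_le_one (by positivity) (pow_le_one₀ hinv0.le hinv1.le) h2
        have h5 : (ℓ : ℝ)⁻¹ ^ m * M < μ := by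
          rwa [lt_div_iff₀ hM0] at hm
        calc ‖i (a q)‖ * ‖∑ t ∈ I' q, t‖ ≤ (‖i (a q₀)‖ * (ℓ : ℝ)⁻¹ ^ m) * M :=
              mul_le_mul h4 h3 (norm_nonneg _) (by positivity)
          _ = ‖i (a q₀)‖ * ((ℓ : ℝ)⁻¹ ^ m * M) := by ring
          _ < ‖i (a q₀)‖ * μ := mul_lt_mul_of_pos_left h5 (norm_pos_iff.2 (hia0 q₀))
      · rw [Finset.not_nonempty_iff_eq_empty.1 hIq, Finset.sum_empty, norm_zero]
        exact hpos
    intro h0
    rw [← Finset.add_sum_erase Finset.univ (fun q => ∑ t ∈ I q, t) (Finset.mem_univ q₀)] at h0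
    have h1 : ∑ t ∈ I q₀, t = -∑ q ∈ Finset.univ.erase q₀, ∑ t ∈ I q, t :=
      eq_neg_of_add_eq_zero_left h0
    rcases (Finset.univ.erase q₀).eq_empty_or_nonempty with he | hne2
    · rw [he, Finset.sum_empty, neg_zero] at h1
      rw [h1, norm_zero] at hlow
      exact absurd hlow (not_le.2 (mul_pos (norm_pos_iff.2 (hia0 q₀)) hμ0))
    · obtain ⟨z, hz, hz'⟩ := IsUltrametricDist.exists_norm_finsetSum_le_of_nonempty hne2
        (fun q => ∑ t ∈ I q, t)
      have h2 : ‖∑ t ∈ I q₀, t‖ ≤ ‖∑ t ∈ I z, t‖ := by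
        conv_lhs => rw [h1, norm_neg]
        exact hz'
      exact absurd ((hlow.trans h2).trans_lt (hhigh z (Finset.ne_of_mem_erase hz))) (lt_irrefl _)

end Pool.Agent.NH52.SF
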