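import Pool.Agent.NH52.SF.Tan
import Pool.Agent.NH52.SF.Fam

/-!
# Systems with large image at one prime
-/

set_option autoImplicit false
set_option linter.unusedSectionVars false

namespace Pool.Agent.NH52.SF

open Module Matrix Polynomial NumberField Pool.Agent.Y800 Pool.Agent.R390.SF
open Pool.Agent.R390.SF.IntegralSystem
open Pool.Agent.Y126.SH (chi exists_reps)

attribute [local instance] Subgroup.fintypeQuotientOfFiniteIndex

/-- A tangent vector of the joint image of the conjugates of `V_ℓ` without isotropic relation. -/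
def GenericTangent {F : SubFld ℚ} [FiniteDimensional ℚ F] {n : ℕ} (w : ℕ) (T : IntegralSystem F n)
    (ℓ : ℕ) [Fact ℓ.Prime] : Prop :=
  ∃ J : Matrix (Fin n) (Fin n) ℤ_[ℓ], T.IsPolarization w ℓ J ∧
    ∃ (X : (GQ ⧸ F.fixingSubgroup) → Matrix (Fin n) (Fin n) ℚ_[ℓ]) (c : ℚ_[ℓ]),
      JointTangent T ℓ X ∧ (∀ q, (X q).transpose * J.map (algebraMap ℤ_[ℓ] ℚ_[ℓ]) +
        J.map (algebraMap ℤ_[ℓ] ℚ_[ℓ]) * X q = c • J.map (algebraMap ℤ_[ℓ] ℚ_[ℓ])) ∧
      NoRelT (fun q => (X q).charpoly) c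

/-- The image of the Galois group at `ℓ` is large: for a polarization `J` of `T_ℓ`, all the families
`X` of infinitesimal isometries of `J` are tangent vectors of the joint image of the conjugates of
`V_ℓ`. For `F = ℚ`: the Lie algebra of the image contains the Lie algebra of the symplectic group (`w`
odd) or of the orthogonal group (`w` even) of the polarization. -/
def LargeImage {F : SubFld ℚ} [FiniteDimensional ℚ F] {n : ℕ} (w : ℕ) (T : IntegralSystem F n)
    (ℓ : ℕ) [Fact ℓ.Prime] : Prop :=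
  ∃ J : Matrix (Fin n) (Fin n) ℤ_[ℓ], T.IsPolarization w ℓ J ∧
    ∀ X : (GQ ⧸ F.fixingSubgroup) → Matrix (Fin n) (Fin n) ℚ_[ℓ],
      (∀ q, (X q).transpose * J.map (algebraMap ℤ_[ℓ] ℚ_[ℓ]) +
        J.map (algebraMap ℤ_[ℓ] ℚ_[ℓ]) * X q = 0) → JointTangent T ℓ X

variable {F : SubFld ℚ} [hF : FiniteDimensional ℚ F] {n : ℕ} {S S' : Finset ℕ} {w : ℕ}
  {T : IntegralSystem F n}

theorem generic_of_tangent (hn : 0 < n) (hT : T.GoodSystem S w) {ℓ : ℕ} [hℓ : Fact ℓ.Prime]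
    (h : GenericTangent w T ℓ) : Generic S w T := by
  obtain ⟨J, hJ, X, c, hX, hc, hno⟩ := h
  intro ℓ' _ d hd _ _
  obtain ⟨p, v, hp, hpS, hv, hrel⟩ := exists_places' hn hT hJ hX hc hno (S ∪ {ℓ'})
  simp only [Finset.mem_union, Finset.mem_singleton, not_or] at hpS
  exact ⟨p, v, hp, hpS.1, fun h => hpS.2 h.symm, hv, fun m hm => hrel d m hd hm⟩

theorem tangent_of_large {ℓ : ℕ} [hℓ : Fact ℓ.Prime] (h : LargeImage w T ℓ) :
    GenericTangent w T ℓ := by
  classical
  obtain ⟨J, hJ, hfull⟩ := h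
  have hJ0 : (qm J).det ≠ 0 := by
    rw [qm_det]
    intro h0
    exact hJ.nondegenerate ((FaithfulSMul.algebraMap_injective ℤ_[ℓ] ℚ_[ℓ])
      (h0.trans (map_zero _).symm))
  have hsym : (qm J).transpose = qm J ∨ (qm J).transpose = -qm J := by
    have h1 : (qm J).transpose = qm J.transpose := by
      ext i j
      rfl
    rw [h1, hJ.symm]
    rcases neg_one_pow_eq_or ℤ w with h2 | h2
    · left
      rw [h2, one_smul]
    · right
      rw [h2, neg_smul, one_smul, map_neg]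
  obtain ⟨X, hX, hno⟩ := exists_fam (ι := GQ ⧸ F.fixingSubgroup) hsym hJ0
  exact ⟨J, hJ, X, 0, hfull X hX, fun q => (hX q).trans (zero_smul _ _).symm, hno⟩

theorem iso_symm {Λ : Set ℕ} {T T' : IntegralSystem F n} (h : IsomorphicOn Λ T T') :
    IsomorphicOn Λ T' T := by
  intro ℓ _ hΛ
  obtain ⟨A, hA⟩ := h ℓ hΛ
  refine ⟨A⁻¹, fun g => ?_⟩
  rw [hA]
  group

theorem iso_trans {Λ : Set ℕ} {T T' T'' : IntegralSystem F n} (h : IsomorphicOn Λ T T')
    (h' : IsomorphicOn Λ T' T'') : IsomorphicOn Λ T T'' := by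
  intro ℓ _ hΛ
  obtain ⟨A, hA⟩ := h ℓ hΛ
  obtain ⟨B, hB⟩ := h' ℓ hΛ
  refine ⟨B * A, fun g => ?_⟩
  rw [hB, hA]
  group

/-- finiteness is inherited by subclasses -/
theorem finite_sub {Λ : Set ℕ} {C C' : IntegralSystem F n → Prop} (hC : ∀ T, C' T → C T)
    (h : ∃ (m : ℕ) (T : Fin m → IntegralSystem F n), (∀ i, C (T i)) ∧
      ∀ T' : IntegralSystem F n, C T' → ∃ i, IsomorphicOn Λ (T i) T') :
    ∃ (m : ℕ) (T : Fin m → IntegralSystem F n), (∀ i, C' (T i)) ∧
      ∀ T' : IntegralSystem F n, C' T' → ∃ i, IsomorphicOn Λ (T i) T' := by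
  classical
  obtain ⟨m, t, -, ht⟩ := h
  let idx : IntegralSystem F n → Option (Fin m) := fun T =>
    if h : ∃ i, IsomorphicOn Λ (t i) T then some h.choose else none
  have hidx : ∀ T, C' T → ∃ i, idx T = some i ∧ IsomorphicOn Λ (t i) T := by
    intro T hT
    have h := ht T (hC T hT)
    exact ⟨h.choose, dif_pos h, h.choose_spec⟩
  refine exists_reps C' (fun T T' => IsomorphicOn Λ T T') idx (Set.toFinite _) fun T0 _ => ?_
  refine ⟨1, fun _ => 0, fun _ => Nat.one_pos, fun T T' hT hT' h1 h2 _ => ?_⟩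
  obtain ⟨i, hi, hiT⟩ := hidx T hT
  obtain ⟨j, hj, hjT⟩ := hidx T' hT'
  have h3 : i = j := Option.some_injective _ (hi.symm.trans (h1.trans (h2.symm.trans hj)))
  subst h3
  exact iso_trans (iso_symm hiT) hjT

end Pool.Agent.NH52.SF
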