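import Pool.Agent.NH52.SF.NoIso

/-!
# Finiteness of the polarized systems without isotropic relations
-/

set_option autoImplicit false
set_option linter.unusedSectionVars false

namespace Pool.Agent.NH52.SF

open Module Polynomial NumberField Pool.Agent.Y800 Pool.Agent.R390.SF
open Pool.Agent.R390.SF.IntegralSystem
open Pool.Agent.Y126.SH (chi exists_reps)

attribute [local instance] Subgroup.fintypeQuotientOfFiniteIndex

/-- The properties of the realisations of a polarized pure motive of weight `w ≥ 0` over `F` with a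
lattice, with good reduction outside the finite set `S` of primes and semistable reduction in `S`. The
polarization of `T_ℓ` is perfect and the Fontaine-Laffaille weights of `T_ℓ / ℓ` are in the expected
range for `ℓ` outside the finite set `S'`. The Hodge numbers are arbitrary. -/
structure PolSystem {F : SubFld ℚ} {n : ℕ} (S S' : Finset ℕ) (w : ℕ) (T : IntegralSystem F n) : Prop
    extends T.PureSystem S w where
  /-- a polarization of `T_ℓ` -/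
  polarization : ∀ (ℓ : ℕ) [Fact ℓ.Prime],
    ∃ J : Matrix (Fin n) (Fin n) ℤ_[ℓ], T.IsPolarization w ℓ J
  /-- a perfect one for `ℓ` outside `S'` -/
  perfect : ∀ (ℓ : ℕ) [Fact ℓ.Prime], ℓ ∉ S' →
    ∃ J : Matrix (Fin n) (Fin n) ℤ_[ℓ], T.IsPolarization w ℓ J ∧ IsUnit J.det
  /-- the weights of `T_ℓ / ℓ` at the places above `ℓ`, for `ℓ` outside `S'` -/
  residual : ∀ (ℓ : ℕ) [Fact ℓ.Prime], ℓ ∉ S' →
    WeightsAt F (T.res ℓ) (fun g => PadicInt.toZMod (chi ℓ g : ℤ_[ℓ])) ℓ (w * n)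

/-- The Frobenius polynomials have no isotropic relations: for every `d` with `0 < 2 d ≤ n` and
`w d [F : ℚ]` even, and for every `ℓ`, there is a prime number `p ≠ ℓ` outside `S` which splits completely
in `F` such that the Frobenius polynomials at the places above `p` have no isotropic relation of size
`d`. -/
def Generic {F : SubFld ℚ} {n : ℕ} (S : Finset ℕ) (w : ℕ) (T : IntegralSystem F n) : Prop :=
  ∀ ℓ : ℕ, ℓ.Prime → ∀ d : ℕ, 0 < d → 2 * d ≤ n → Even (w * d * finrank ℚ F) →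
    ∃ (p : ℕ) (v : Fin (finrank ℚ F) → Ideal (𝓞 F)), p.Prime ∧ p ∉ S ∧ ℓ ≠ p ∧ SplitsInto F p v ∧
      ∀ m : ℕ, 0 < m → ¬ IsotropicRelation ℂ (fun i => T.poly (v i)) (p ^ w) d m

section single

variable {F : SubFld ℚ} {n : ℕ} {S S' : Finset ℕ} {w : ℕ} {T : IntegralSystem F n}

variable [hF : FiniteDimensional ℚ F]

theorem coeff_ne (hT : T.GoodSystem S w) {p : ℕ} (hp : p.Prime) (hpS : p ∉ S) {𝔭 : Ideal (𝓞 F)}
    (h𝔭 : 𝔭.IsMaximal) (hp𝔭 : (p : 𝓞 F) ∈ 𝔭) : (T.poly 𝔭).coeff 0 ≠ 0 := by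
  intro h0
  have hg := hT.good p hp hpS 𝔭 h𝔭 hp𝔭
  have hne : 𝔭 ≠ ⊥ := by
    intro h0
    rw [h0, Ideal.mem_bot] at hp𝔭
    exact hp.ne_zero (by exact_mod_cast hp𝔭)
  have hfin : Finite (𝓞 F ⧸ 𝔭) := Ideal.finiteQuotientOfFreeOfNeBot _ hne
  have hq : 1 ≤ Nat.card (𝓞 F ⧸ 𝔭) := Nat.card_pos
  have h1 := hg.pure 0 (by
    rw [mem_aroots]
    refine ⟨hg.monic.ne_zero, ?_⟩
    rw [← map_zero (algebraMap ℤ ℂ), aeval_algebraMap_apply, coe_aeval_eq_eval,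
      ← coeff_zero_eq_eval_zero, h0])
  rw [norm_zero] at h1
  have h2 : (0 : ℝ) < (Nat.card (𝓞 F ⧸ 𝔭) : ℝ) ^ w := by
    have : (0 : ℝ) < Nat.card (𝓞 F ⧸ 𝔭) := by exact_mod_cast hq
    positivity
  rw [← h1] at h2
  norm_num at h2

theorem expo_pos' : 0 < expo F.fixingSubgroup := expo_pos

theorem finrank_ne : Nonempty (Fin (finrank ℚ F)) := ⟨⟨0, Module.finrank_pos⟩⟩

/-- relations come from relations over the complex numbers, at a place -/
theorem rel_place (hT : T.GoodSystem S w) {p : ℕ} (hp : p.Prime) (hpS : p ∉ S)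
    {v : Fin (finrank ℚ F) → Ideal (𝓞 F)} (hv : SplitsInto F p v) {d : ℕ}
    (hrel : ∀ m : ℕ, 0 < m → ¬ IsotropicRelation ℂ (fun i => T.poly (v i)) (p ^ w) d m) :
    ∃ M : ℤ, M ≠ 0 ∧ ∀ (Ω : Type) [Field Ω] [IsAlgClosed Ω], (M : Ω) ≠ 0 →
      ¬ IsotropicRelation Ω (fun i => T.poly (v i)) (p ^ w) d (expo F.fixingSubgroup) := by
  have : Nonempty (Fin (finrank ℚ F)) := finrank_ne
  obtain ⟨M, hM0, hM⟩ := rel_gen (fun i => T.poly (v i))
    (fun i => (hT.good p hp hpS _ (hv.2 i).1 (hv.2 i).2).monic)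
    (fun i => coeff_ne hT hp hpS (hv.2 i).1 (hv.2 i).2) (p ^ w) (expo F.fixingSubgroup)
  exact ⟨M, hM0, fun Ω _ _ hMΩ h => hrel _ expo_pos' (hM Ω hMΩ d h)⟩

theorem noiso_rat (hT : PolSystem S S' w T) (hg : Generic S w T) {ℓ : ℕ} [hℓ : Fact ℓ.Prime] :
    ∃ J : Matrix (Fin n) (Fin n) ℚ_[ℓ], Equi (T.rat ℓ) J ∧ NoIso (T.rat ℓ) J := by
  obtain ⟨J, hJ⟩ := hT.polarization ℓ
  obtain ⟨c, hw⟩ := hT.weights ℓ
  obtain ⟨q, hq, hqS', P, hPm, hqP, σ, hσ, hσc⟩ := exists_core (F := F) (S ∪ {ℓ})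
  have hqS : q ∉ S := fun h => hqS' (Finset.mem_union_left _ h)
  have hqℓ : ℓ ≠ q := fun h => hqS' (Finset.mem_union_right _ (Finset.mem_singleton.2 h.symm))
  obtain ⟨M, hM0, hM⟩ := exists_M hT.toGoodSystem hq hqS hPm hqP hσ hσc c
  refine ⟨_, equi_rat hJ, noiso_gen (algebraMap ℤ_[ℓ] ℚ_[ℓ]) continuous_coe mink_padic
    hT.toPureSystem ?_ ?_ hw hq hqS hqℓ hPm hqP hσ hσc (M := M) (by exact_mod_cast hM0) hM ?_⟩
  · have h1 := qm_det J
    intro h0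
    rw [show J.map (algebraMap ℤ_[ℓ] ℚ_[ℓ]) = qm J from rfl, h1] at h0
    exact hJ.nondegenerate ((FaithfulSMul.algebraMap_injective ℤ_[ℓ] ℚ_[ℓ])
      (h0.trans (map_zero _).symm))
  · intro g
    have h1 := congrArg qm (hJ.equivariant g)
    rw [qm_smul, map_mul, map_mul, map_pow] at h1
    exact h1
  · intro d hd hdn he
    obtain ⟨p, v, hp, hpS, hpℓ, hv, hrel⟩ := hg ℓ hℓ.out d hd hdn he
    obtain ⟨M', hM', h1⟩ := rel_place hT.toGoodSystem hp hpS hv hrel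
    exact ⟨p, v, hp, hpS, hpℓ, hv, h1 _ (by exact_mod_cast hM')⟩

theorem semis_rat (hT : PolSystem S S' w T) (hg : Generic S w T) {ℓ : ℕ} [hℓ : Fact ℓ.Prime] :
    Semis (T.rat ℓ) := by
  obtain ⟨J, h1, h2⟩ := noiso_rat hT hg (ℓ := ℓ)
  exact fun U hU => ⟨orth J U, orth_stable h1 hU, isCompl_orth h1 h2 hU⟩

theorem noiso_res (hT : PolSystem S S' w T) {ℓ : ℕ} [hℓ : Fact ℓ.Prime] (hℓS : ℓ ∉ S')
    {p : ℕ} (hp : p.Prime) (hpS : p ∉ S) (hpℓ : ℓ ≠ p) {P : Ideal ZBar} (hP : P.IsMaximal)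
    (hpP : (p : ZBar) ∈ P) {σ : GQ} (hσ : IsGeomFrob p P σ)
    (hσc : σ ∈ (F.fixingSubgroup).normalCore) {M : ℤ} (hMk : (M : ZMod ℓ) ≠ 0)
    (hM : ∀ (Ω : Type) [Field Ω] [IsAlgClosed Ω], (M : Ω) ≠ 0 →
      ∀ (A : (GQ ⧸ F.fixingSubgroup) → Multiset Ω) (a : ℕ),
        a ≤ expo F.fixingSubgroup * (finrank ℚ F * (w * n)) →
        (∀ q, A q ≤ ((T.poly ((cj q.out P).under (𝓞 F))).map (Int.castRingHom Ω)).roots) →
        ∏ q, (A q).prod ^ expo F.fixingSubgroup = (p : Ω) ^ a →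
          a * 2 = ∑ q, expo F.fixingSubgroup * (w * Multiset.card (A q)))
    (hno : ∀ d : ℕ, 0 < d → 2 * d ≤ n → Even (w * d * finrank ℚ F) →
      ∃ (p : ℕ) (v : Fin (finrank ℚ F) → Ideal (𝓞 F)), p.Prime ∧ p ∉ S ∧ ℓ ≠ p ∧
        SplitsInto F p v ∧ ¬ IsotropicRelation (AlgebraicClosure (ZMod ℓ)) (fun i => T.poly (v i))
          (p ^ w) d (expo F.fixingSubgroup)) :
    ∃ J : Matrix (Fin n) (Fin n) ℤ_[ℓ], T.IsPolarization w ℓ J ∧ IsUnit J.det ∧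
      NoIso (toF (T.rho ℓ)) (rd J) := by
  obtain ⟨J, hJ, hJu⟩ := hT.perfect ℓ hℓS
  refine ⟨J, hJ, hJu, noiso_gen (PadicInt.toZMod (p := ℓ)) continuous_toZMod mink_zmod
    hT.toPureSystem ?_ ?_ (hT.residual ℓ hℓS) hp hpS hpℓ hP hpP hσ hσc hMk hM hno⟩
  · have h1 : IsUnit (rd J).det := by
      have h2 := hJu.map (PadicInt.toZMod (p := ℓ))
      rwa [RingHom.map_det] at h2
    exact h1.ne_zero
  · intro g
    have h1 := congrArg rd (hJ.equivariant g)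
    rw [rd_smul, map_mul, map_mul, map_pow] at h1
    exact h1

/-- the polynomials are determined by the traces -/
theorem poly_eq {T T0 : IntegralSystem F n} (hT : T.GoodSystem S w) (h0 : T0.GoodSystem S w)
    (htr : ∀ (ℓ : ℕ) [Fact ℓ.Prime] (g : F.fixingSubgroup),
      (T.rat ℓ g : Matrix (Fin n) (Fin n) ℚ_[ℓ]).trace =
        (T0.rat ℓ g : Matrix (Fin n) (Fin n) ℚ_[ℓ]).trace)
    {p : ℕ} (hp : p.Prime) (hpS : p ∉ S) {v : Fin (finrank ℚ F) → Ideal (𝓞 F)}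
    (hv : SplitsInto F p v) (i : Fin (finrank ℚ F)) : T.poly (v i) = T0.poly (v i) := by
  obtain ⟨ℓ, hℓ, hℓp⟩ := Nat.exists_infinite_primes (p + 1)
  have hF : Fact ℓ.Prime := ⟨hℓp⟩
  have hne : ℓ ≠ p := by omega
  obtain ⟨P, σ, hP, hpP, hσ⟩ := exists_geom hp
  obtain ⟨e, he⟩ := exists_equiv hp hv hP hpP
  have hσc := mem_core hp hv hP hpP hσ
  have h1 := he (e i)
  rw [Equiv.symm_apply_apply] at h1
  have hfr : IsGeomFrob p (cj (e i).out P)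
      (⟨(e i).out⁻¹ * σ * (e i).out, core_conj hσc (e i).out⟩ : F.fixingSubgroup) := cj_frob hσ
  have h2 := charpoly_frob_rat hT hp hpS hne (cj_max hP) (cj_nat.2 hpP) hfr
  have h3 := charpoly_frob_rat h0 hp hpS hne (cj_max hP) (cj_nat.2 hpP) hfr
  rw [h1] at h2 h3
  have h4 := charpoly_of_traces (T.rat ℓ) (T0.rat ℓ) (htr ℓ)
    ⟨(e i).out⁻¹ * σ * (e i).out, core_conj hσc (e i).out⟩
  rw [h2, h3] at h4
  exact map_injective _ (RingHom.injective_int _) h4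

/-- no relations modulo large primes -/
theorem exists_bound {T0 : IntegralSystem F n} (h0 : T0.GoodSystem S w) (hg : Generic S w T0) :
    ∃ N : ℕ, ∀ T : IntegralSystem F n,
      (∀ (p : ℕ) (v : Fin (finrank ℚ F) → Ideal (𝓞 F)), p.Prime → p ∉ S → SplitsInto F p v →
        ∀ i, T.poly (v i) = T0.poly (v i)) →
      ∀ (ℓ : ℕ) [Fact ℓ.Prime], N < ℓ →
        ∀ d : ℕ, 0 < d → 2 * d ≤ n → Even (w * d * finrank ℚ F) →
          ∃ (p : ℕ) (v : Fin (finrank ℚ F) → Ideal (𝓞 F)), p.Prime ∧ p ∉ S ∧ ℓ ≠ p ∧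
            SplitsInto F p v ∧ ¬ IsotropicRelation (AlgebraicClosure (ZMod ℓ))
              (fun i => T.poly (v i)) (p ^ w) d (expo F.fixingSubgroup) := by
  have h1 : ∀ d : ℕ, ∃ N : ℕ, ∀ T : IntegralSystem F n,
      (∀ (p : ℕ) (v : Fin (finrank ℚ F) → Ideal (𝓞 F)), p.Prime → p ∉ S → SplitsInto F p v →
        ∀ i, T.poly (v i) = T0.poly (v i)) →
      ∀ (ℓ : ℕ) [Fact ℓ.Prime], N < ℓ → 0 < d → 2 * d ≤ n → Even (w * d * finrank ℚ F) →
          ∃ (p : ℕ) (v : Fin (finrank ℚ F) → Ideal (𝓞 F)), p.Prime ∧ p ∉ S ∧ ℓ ≠ p ∧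
            SplitsInto F p v ∧ ¬ IsotropicRelation (AlgebraicClosure (ZMod ℓ))
              (fun i => T.poly (v i)) (p ^ w) d (expo F.fixingSubgroup) := by
    intro d
    by_cases hd : 0 < d ∧ 2 * d ≤ n ∧ Even (w * d * finrank ℚ F)
    · obtain ⟨hd0, hdn, he⟩ := hd
      obtain ⟨p, v, hp, hpS, -, hv, hrel⟩ := hg 2 Nat.prime_two d hd0 hdn he
      obtain ⟨M, hM0, hM⟩ := rel_place h0 hp hpS hv hrel
      refine ⟨max p M.natAbs, fun T hT ℓ _ hℓ _ _ _ => ⟨p, v, hp, hpS, ?_, hv, ?_⟩⟩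
      · rw [max_lt_iff] at hℓ
        omega
      · rw [max_lt_iff] at hℓ
        have h2 : (fun i => T.poly (v i)) = fun i => T0.poly (v i) :=
          funext fun i => hT p v hp hpS hv i
        rw [h2]
        refine hM _ ?_
        have h3 := ne_zero_mod hM0 hℓ.2
        intro h4
        apply h3
        have h5 : algebraMap (ZMod ℓ) (AlgebraicClosure (ZMod ℓ)) (M : ZMod ℓ) = 0 := by
          rw [map_intCast]
          exact h4
        exact (FaithfulSMul.algebraMap_injective (ZMod ℓ) (AlgebraicClosure (ZMod ℓ)))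
          (h5.trans (map_zero _).symm)
    · exact ⟨0, fun _ _ _ _ _ h2 h3 h4 => (hd ⟨h2, h3, h4⟩).elim⟩
  choose N hN using h1
  refine ⟨(Finset.range (n + 1)).sup N, fun T hT ℓ _ hℓ d hd hdn he => hN d T hT ℓ ?_ hd hdn he⟩
  refine lt_of_le_of_lt (Finset.le_sup (f := N) (Finset.mem_range.2 ?_)) hℓ
  omega

end single

section main

variable {F : SubFld ℚ} [hF : FiniteDimensional ℚ F] {n : ℕ}

/-- **Finiteness of the polarized systems without isotropic relations.** -/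
theorem gen_finiteness (hn : 0 < n) (w : ℕ) (S S' : Finset ℕ) :
    ∃ (m : ℕ) (T : Fin m → IntegralSystem F n), (∀ i, PolSystem S S' w (T i) ∧ Generic S w (T i)) ∧
      ∀ T' : IntegralSystem F n, PolSystem S S' w T' → Generic S w T' →
        ∃ i, IsomorphicOn Set.univ (T i) T' := by
  classical
  obtain ⟨𝒯, h𝒯, hdet⟩ := traces_of_finite (F := F) hn S
  obtain ⟨p, hp, hpS, P, hP, hpP, σ, hσ, hσc⟩ := exists_core (F := F) S
  let 𝒰 : Finset (Ideal (𝓞 F)) := 𝒯 ∪ (Finset.univ.image fun q : GQ ⧸ F.fixingSubgroup =>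
    (cj q.out P).under (𝓞 F))
  have h𝒰 : ∀ 𝔭 ∈ 𝒰, 𝔭.IsMaximal ∧ ∃ p : ℕ, p.Prime ∧ p ∉ S ∧ (p : 𝓞 F) ∈ 𝔭 := by
    intro 𝔭 h𝔭
    rcases Finset.mem_union.1 h𝔭 with h1 | h1
    · exact h𝒯 𝔭 h1
    · obtain ⟨q, _, rfl⟩ := Finset.mem_image.1 h1
      refine ⟨under_max (cj_max hP), p, hp, hpS, ?_⟩
      rw [mem_under, map_natCast]
      exact cj_nat.2 hpP
  have hmem : ∀ q : GQ ⧸ F.fixingSubgroup, (cj q.out P).under (𝓞 F) ∈ 𝒰 := fun q =>
    Finset.mem_union_right _ (Finset.mem_image_of_mem _ (Finset.mem_univ q))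
  have hpoly : ∀ T T' : IntegralSystem F n, T.GoodSystem S w → T'.GoodSystem S w →
      ((fun x : 𝒰 × Fin (n + 1) => (T.poly x.1).coeff x.2) =
        fun x : 𝒰 × Fin (n + 1) => (T'.poly x.1).coeff x.2) →
      ∀ 𝔭 ∈ 𝒰, T.poly 𝔭 = T'.poly 𝔭 := by
    intro T T' hT hT' heq 𝔭 h𝔭
    obtain ⟨h1, p, hp, hpS, hp𝔭⟩ := h𝒰 𝔭 h𝔭
    ext i
    by_cases hi : i < n + 1
    · exact congrFun heq (⟨𝔭, h𝔭⟩, ⟨i, hi⟩)
    · rw [Polynomial.coeff_eq_zero_of_natDegree_lt, Polynomial.coeff_eq_zero_of_natDegree_lt]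
      · rw [(hT'.good p hp hpS 𝔭 h1 hp𝔭).natDegree]
        omega
      · rw [(hT.good p hp hpS 𝔭 h1 hp𝔭).natDegree]
        omega
  have hreps := exists_reps (fun T : IntegralSystem F n => PolSystem S S' w T ∧ Generic S w T)
    (fun T T' => IsomorphicOn Set.univ T T')
    (fun T => fun x : 𝒰 × Fin (n + 1) => (T.poly x.1).coeff x.2) ?_ ?_
  · obtain ⟨m, T, h1, h2⟩ := hreps
    exact ⟨m, T, h1, fun T' h3 h4 => h2 T' ⟨h3, h4⟩⟩
  · refine (Set.Finite.pi' (t := fun x : 𝒰 × Fin (n + 1) => Set.Icc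
      (-((Nat.card (𝓞 F ⧸ (x.1 : Ideal (𝓞 F))) ^ w) ^ n * n.choose (n / 2) : ℕ) : ℤ)
      (((Nat.card (𝓞 F ⧸ (x.1 : Ideal (𝓞 F))) ^ w) ^ n * n.choose (n / 2) : ℕ) : ℤ))
      (fun p => Set.finite_Icc _ _)).subset ?_
    rintro _ ⟨T, hT, rfl⟩ x
    obtain ⟨h1, r, hr, hrS, h2⟩ := h𝒰 x.1 x.1.2
    exact abs_le.1 (coeff_bound hT.1.toGoodSystem hr hrS h1 h2 x.2)
  · rintro T0 ⟨hT0, hg0⟩
    obtain ⟨M, hM0, hM⟩ := exists_M hT0.toGoodSystem hp hpS hP hpP hσ hσc (w * n)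
    obtain ⟨N', hN'⟩ := exists_bound hT0.toGoodSystem hg0
    let N : ℕ := max (max (S'.sup id) N') (max p M.natAbs)
    choose k c hk hc using local_code2 (Λ := Set.univ) (T0 := T0)
      (fun ℓ hℓ _ => semis_rat hT0 hg0)
    obtain ⟨K, ⟨e⟩⟩ := Finite.exists_equiv_fin (∀ ℓ : Fin (N + 1), Fin (k ℓ))
    refine ⟨K, fun T => (e fun ℓ => ⟨c ℓ T, hk ℓ T⟩ : ℕ), fun T => Fin.is_lt _, ?_⟩
    rintro T T' ⟨hT, hg⟩ ⟨hT', hg'⟩ hi hi' hcode ℓ hℓ hℓΛ
    have htr : ∀ T : IntegralSystem F n, PolSystem S S' w T →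
        ((fun x : 𝒰 × Fin (n + 1) => (T.poly x.1).coeff x.2) =
          fun x : 𝒰 × Fin (n + 1) => (T0.poly x.1).coeff x.2) →
        ∀ (ℓ : ℕ) [Fact ℓ.Prime] (g : F.fixingSubgroup),
          (T.rat ℓ g : Matrix (Fin n) (Fin n) ℚ_[ℓ]).trace =
            (T0.rat ℓ g : Matrix (Fin n) (Fin n) ℚ_[ℓ]).trace := by
      intro T hT hi
      refine hdet w w T T0 hT.toGoodSystem hT0.toGoodSystem (fun p hp => ?_)
      rw [hpoly T T0 hT.toGoodSystem hT0.toGoodSystem hi p (Finset.mem_union_left _ hp)]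
    have key : ∀ T : IntegralSystem F n, PolSystem S S' w T → Generic S w T →
        ((fun x : 𝒰 × Fin (n + 1) => (T.poly x.1).coeff x.2) =
          fun x : 𝒰 × Fin (n + 1) => (T0.poly x.1).coeff x.2) →
        ∃ B : Matrix (Fin n) (Fin n) ℤ_[ℓ], Inter T0 T ℓ B := fun T hT hg hi =>
      exists_inter (semis_rat hT0 hg0) (semis_rat hT hg) (htr T hT hi ℓ)
    have key2 : N < ℓ → ∀ T : IntegralSystem F n, PolSystem S S' w T →
        ((fun x : 𝒰 × Fin (n + 1) => (T.poly x.1).coeff x.2) =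
          fun x : 𝒰 × Fin (n + 1) => (T0.poly x.1).coeff x.2) →
        ∃ J : Matrix (Fin n) (Fin n) ℤ_[ℓ], T.IsPolarization w ℓ J ∧ IsUnit J.det ∧
          NoIso (toF (T.rho ℓ)) (rd J) := by
      intro hN T hT hi
      simp only [N, max_lt_iff] at hN
      obtain ⟨⟨h1, h1'⟩, h2, h3⟩ := hN
      refine noiso_res hT (fun h4 => absurd (Finset.le_sup (f := id) h4) (not_le.2 h1)) hp hpS
        (by omega) hP hpP hσ hσc (M := M) (ne_zero_mod hM0 h3) ?_ ?_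
      · intro Ω _ _ hMΩ A a ha hA hprod
        refine hM Ω hMΩ A a ha (fun q => ?_) hprod
        rw [← hpoly T T0 hT.toGoodSystem hT0.toGoodSystem hi _ (hmem q)]
        exact hA q
      · exact hN' T (fun p v hp hpS hv i =>
          poly_eq hT.toGoodSystem hT0.toGoodSystem (htr T hT hi) hp hpS hv i) ℓ h1'
    have h1 := key T hT hg hi
    have h2 := key T' hT' hg' hi'
    by_cases hℓN : ℓ ≤ N
    · have h3 := e.injective (Fin.ext hcode)
      have h4 := congrFun h3 ⟨ℓ, Nat.lt_succ_of_le hℓN⟩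
      exact hc ℓ T T' hℓΛ h1 h2 (congrArg Fin.val h4)
    · obtain ⟨B, hB, hBρ⟩ := h1
      obtain ⟨B', hB', hBρ'⟩ := h2
      obtain ⟨J0, hJ0, -, hn0⟩ := key2 (not_le.1 hℓN) T0 hT0 rfl
      obtain ⟨J, hJ, hJu, hn⟩ := key2 (not_le.1 hℓN) T hT hi
      obtain ⟨J', hJ', hJu', hn'⟩ := key2 (not_le.1 hℓN) T' hT' hi'
      obtain ⟨A, hA⟩ := uniq hJu hJ.equivariant hJ0.equivariant hn hn0 hB hBρ
      obtain ⟨A', hA'⟩ := uniq hJu' hJ'.equivariant hJ0.equivariant hn' hn0 hB' hBρ'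
      refine ⟨A' * A⁻¹, fun g => ?_⟩
      rw [hA, hA']
      group

end main

end Pool.Agent.NH52.SF
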