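import Pool.Agent.NH52.SF.RelG
import Pool.Agent.Y142.Rel

/-!
# The eigenvalues on an isotropic stable subspace
-/

set_option autoImplicit false

namespace Pool.Agent.NH52.SF

open Polynomial Module Pool.Agent.Y142 Pool.Agent.R390.SF

section matrix

variable {k Ω : Type} [Field k] [Field Ω] [Algebra k Ω] [IsAlgClosed Ω] {n d : ℕ}

/-- If `M` is a similitude with factor `s` of the form `J` and `C` is the matrix of an isotropic stable
subspace on which `M` acts through `σ`, then the eigenvalues `z` of `σ` together with the `s / z` are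
eigenvalues of `M`. -/
theorem iso_roots (M J : Matrix (Fin n) (Fin n) k) (hJ : J.det ≠ 0) {s : k} (hs : s ≠ 0)
    (hM : M.transpose * J * M = s • J) (C : Matrix (Fin n) (Fin d) k)
    (hC : Function.Injective C.mulVec) (σ : Matrix (Fin d) (Fin d) k) (hσ : M * C = C * σ)
    (hiso : C.transpose * J * C = 0) :
    σ.charpoly.aroots Ω + (σ.charpoly.aroots Ω).map (fun z => algebraMap k Ω s / z) ≤
      M.charpoly.aroots Ω := by
  classical
  have hinf : Infinite Ω := IsAlgClosed.instInfinite
  let f : k →+* Ω := algebraMap k Ω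
  let M' := M.map f
  let J' := J.map f
  let C' := C.map f
  let σ' := σ.map f
  have hM' : M'.transpose * J' * M' = f s • J' := by
    have h1 := congrArg (fun X : Matrix (Fin n) (Fin n) k => X.map f) hM
    simp only [Matrix.map_mul, Matrix.transpose_map] at h1
    refine h1.trans ?_
    ext i j
    simp [J']
  have hσ' : M' * C' = C' * σ' := by
    have h1 := congrArg (fun X : Matrix (Fin n) (Fin d) k => X.map f) hσ
    simp only [Matrix.map_mul] at h1
    exact h1
  have hiso' : C'.transpose * J' * C' = 0 := by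
    have h1 := congrArg (fun X : Matrix (Fin d) (Fin d) k => X.map f) hiso
    simp only [Matrix.map_mul, Matrix.transpose_map] at h1
    refine h1.trans ?_
    ext i j
    simp
  -- a left inverse of `C`
  obtain ⟨D, hD⟩ : ∃ D : Matrix (Fin d) (Fin n) k, D * C = 1 := by
    obtain ⟨g, hg⟩ := LinearMap.exists_leftInverse_of_injective (Matrix.mulVecLin C)
      (LinearMap.ker_eq_bot.2 hC)
    refine ⟨LinearMap.toMatrix' g, ?_⟩
    have h1 := congrArg LinearMap.toMatrix' hg
    rw [LinearMap.toMatrix'_comp, LinearMap.toMatrix'_id] at h1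
    have h2 : LinearMap.toMatrix' (Matrix.mulVecLin C) = C := by
      rw [← Matrix.toLin'_apply', LinearMap.toMatrix'_toLin']
    rwa [h2] at h1
  have hD' : D.map f * C' = 1 := by
    have h1 := congrArg (fun X : Matrix (Fin d) (Fin d) k => X.map f) hD
    simp only [Matrix.map_mul] at h1
    refine h1.trans ?_
    exact Matrix.map_one f (map_zero f) (map_one f)
  have hC' : Function.Injective C'.mulVec := by
    intro x y hxy
    have h1 := congrArg (D.map f).mulVec hxy
    rwa [Matrix.mulVec_mulVec, Matrix.mulVec_mulVec, hD', Matrix.one_mulVec,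
      Matrix.one_mulVec] at h1
  have hfs : f s ≠ 0 := (_root_.map_ne_zero f).2 hs
  have hJ'det : J'.det ≠ 0 := by
    have h1 : J'.det = f J.det := (RingHom.map_det f J).symm
    rw [h1]
    exact (_root_.map_ne_zero f).2 hJ
  let Bf : LinearMap.BilinForm Ω (Fin n → Ω) := Matrix.toBilin' J'
  have hBnd : Bf.Nondegenerate :=
    LinearMap.BilinForm.nondegenerate_toBilin'_of_det_ne_zero' J' hJ'det
  have hBv : ∀ x y, Bf x y = dotProduct x (J'.mulVec y) := fun x y =>
    Matrix.toBilin'_apply' J' x y
  let e : (Fin n → Ω) →ₗ[Ω] (Fin n → Ω) := Matrix.toLin' M'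
  have he : ∀ x, e x = M'.mulVec x := fun x => Matrix.toLin'_apply M' x
  have hsim : ∀ x y, Bf (e x) (e y) = f s * Bf x y := by
    intro x y
    rw [hBv, hBv, he, he, Matrix.mulVec_mulVec]
    have h1 : dotProduct (M'.mulVec x) ((J' * M').mulVec y) =
        dotProduct x ((M'.transpose * J' * M').mulVec y) := by
      rw [Matrix.mul_assoc, ← Matrix.mulVec_mulVec y M'.transpose (J' * M'),
        Matrix.dotProduct_mulVec x, Matrix.vecMul_transpose]
    rw [h1, hM', Matrix.smul_mulVec, dotProduct_smul, smul_eq_mul]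
  let W : Submodule Ω (Fin n → Ω) := LinearMap.range C'.mulVecLin
  have hW : W ≤ W.comap e := by
    rintro _ ⟨v, rfl⟩
    refine ⟨σ'.mulVec v, ?_⟩
    rw [Matrix.mulVecLin_apply, Matrix.mulVecLin_apply, he, Matrix.mulVec_mulVec,
      Matrix.mulVec_mulVec, hσ']
  have hWiso : W ≤ Bf.orthogonal W := by
    rintro _ ⟨v, rfl⟩
    rw [LinearMap.BilinForm.mem_orthogonal_iff]
    rintro _ ⟨u, rfl⟩
    show Bf _ _ = 0
    rw [hBv, Matrix.mulVecLin_apply, Matrix.mulVecLin_apply, Matrix.mulVec_mulVec]
    have h1 : dotProduct (C'.mulVec u) ((J' * C').mulVec v) =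
        dotProduct u ((C'.transpose * J' * C').mulVec v) := by
      rw [Matrix.mul_assoc, ← Matrix.mulVec_mulVec v C'.transpose (J' * C'),
        Matrix.dotProduct_mulVec u, Matrix.vecMul_transpose]
    rw [h1, hiso', Matrix.zero_mulVec, dotProduct_zero]
  have hdvd := charpoly_mul_dual_dvd hBnd hfs hsim hW hWiso
  -- the characteristic polynomials
  have hcp : (e.restrict hW).charpoly = σ'.charpoly := by
    have hinj : Function.Injective C'.mulVecLin := hC'
    let ε : (Fin d → Ω) ≃ₗ[Ω] W := LinearEquiv.ofInjective C'.mulVecLin hinj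
    have h1 : e.restrict hW = ε.conj (Matrix.toLin' σ') := by
      apply LinearMap.ext
      intro x
      obtain ⟨v, rfl⟩ := ε.surjective x
      rw [LinearEquiv.conj_apply_apply, LinearEquiv.symm_apply_apply]
      apply Subtype.ext
      show e (ε v : Fin n → Ω) = (ε (Matrix.toLin' σ' v) : Fin n → Ω)
      rw [LinearEquiv.ofInjective_apply, LinearEquiv.ofInjective_apply, he,
        Matrix.mulVecLin_apply, Matrix.mulVecLin_apply, Matrix.toLin'_apply, Matrix.mulVec_mulVec,
        Matrix.mulVec_mulVec, hσ']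
    rw [h1, LinearEquiv.charpoly_conj]
    exact Matrix.charpoly_toLin' _
  have hcpM : e.charpoly = M'.charpoly := Matrix.charpoly_toLin' _
  rw [hcp, hcpM] at hdvd
  -- `σ'` is invertible
  have hM'det : M'.det ≠ 0 := by
    intro h0
    have h1 := congrArg Matrix.det hM'
    rw [Matrix.det_mul, Matrix.det_mul, h0, mul_zero, Matrix.det_smul] at h1
    exact mul_ne_zero (pow_ne_zero _ hfs) hJ'det h1.symm
  have hσdet : σ'.det ≠ 0 := by
    intro h0
    obtain ⟨v, hv0, hv⟩ := Matrix.exists_mulVec_eq_zero_iff.2 h0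
    apply hv0
    apply hC'
    have h1 : M'.mulVec (C'.mulVec v) = 0 := by
      rw [Matrix.mulVec_mulVec, hσ', ← Matrix.mulVec_mulVec, hv, Matrix.mulVec_zero]
    by_contra hne
    rw [Matrix.mulVec_zero] at hne
    exact hM'det (Matrix.exists_mulVec_eq_zero_iff.1 ⟨_, hne, h1⟩)
  have hev : σ'.charpoly.eval 0 ≠ 0 := by
    rw [← coeff_zero_eq_eval_zero]
    intro h0
    apply hσdet
    rw [Matrix.det_eq_sign_charpoly_coeff, h0, mul_zero]
  have hmon : σ'.charpoly.Monic := Matrix.charpoly_monic _
  have h1 := Polynomial.roots.le_of_dvd (Matrix.charpoly_monic M').ne_zero hdvd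
  have hne : σ'.charpoly * dualPoly (f s) σ'.charpoly ≠ 0 := by
    intro h0
    rw [h0] at hdvd
    exact (Matrix.charpoly_monic M').ne_zero (zero_dvd_iff.1 hdvd)
  rw [Polynomial.roots_mul hne] at h1
  have h2 := aroots_dualPoly (Ω := Ω) hfs hmon hev
  rw [aroots_def, aroots_def, Algebra.algebraMap_self, Polynomial.map_id, Polynomial.map_id] at h2
  rw [h2] at h1
  have h3 : σ.charpoly.aroots Ω = σ'.charpoly.roots := by
    rw [aroots_def]
    congr 1
    exact (Matrix.charpoly_map σ f).symm
  have h4 : M.charpoly.aroots Ω = M'.charpoly.roots := by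
    rw [aroots_def]
    congr 1
    exact (Matrix.charpoly_map M f).symm
  rw [h3, h4]
  exact h1

end matrix

section sub

variable {G : Type*} [Group G] {k Ω : Type} [Field k] [Field Ω] [Algebra k Ω] [IsAlgClosed Ω]
  {n : ℕ}

/-- the eigenvalues on an isotropic stable subspace -/
theorem iso_sub {ρ : G →* GL (Fin n) k} {J : Matrix (Fin n) (Fin n) k} (hJ : J.det ≠ 0)
    {U : Submodule k (Fin n → k)} (hU : IsStable ρ U)
    (hiso : ∀ x ∈ U, ∀ y ∈ U, dotProduct x (J.mulVec y) = 0) {g : G} {s : k} (hs : s ≠ 0)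
    (hg : (ρ g : Matrix (Fin n) (Fin n) k).transpose * J * (ρ g : Matrix (Fin n) (Fin n) k) = s • J) :
    ((lin ρ g).restrict (hU g)).charpoly.aroots Ω +
      (((lin ρ g).restrict (hU g)).charpoly.aroots Ω).map (fun z => algebraMap k Ω s / z) ≤
        (lin ρ g).charpoly.aroots Ω := by
  classical
  let b := Module.finBasis k U
  let C : Matrix (Fin n) (Fin (finrank k U)) k := Matrix.of fun i j => (b j : Fin n → k) i
  have hC : ∀ v, C.mulVec v = ((∑ j, v j • b j : U) : Fin n → k) := by
    intro v
    funext i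
    rw [Matrix.mulVec, dotProduct, Submodule.coe_sum, Finset.sum_apply]
    refine Finset.sum_congr rfl fun j _ => ?_
    show (b j : Fin n → k) i * v j = v j * (b j : Fin n → k) i
    rw [mul_comm]
  have hinj : Function.Injective C.mulVec := by
    intro v v' hv
    rw [hC, hC] at hv
    have h3 := Subtype.ext hv
    have h4 := congrArg b.repr h3
    funext j
    have h5 := DFunLike.congr_fun h4 j
    rw [Basis.repr_sum_self, Basis.repr_sum_self] at h5
    exact h5
  have heq : (ρ g : Matrix (Fin n) (Fin n) k) * C = C * LinearMap.toMatrix b b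
      ((lin ρ g).restrict (hU g)) := by
    ext i j
    have h3 : (C * LinearMap.toMatrix b b ((lin ρ g).restrict (hU g))) i j =
        C.mulVec (fun l => LinearMap.toMatrix b b ((lin ρ g).restrict (hU g)) l j) i := rfl
    rw [h3, hC]
    have h4 : (∑ l, LinearMap.toMatrix b b ((lin ρ g).restrict (hU g)) l j • b l) =
        ((lin ρ g).restrict (hU g)) (b j) := by
      simp only [LinearMap.toMatrix_apply]
      exact b.sum_repr _
    rw [h4]
    rfl
  have hCiso : C.transpose * J * C = 0 := by
    ext i j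
    rw [Matrix.mul_assoc, Matrix.mul_apply, Matrix.zero_apply]
    have h1 := hiso (b i) (b i).2 (b j) (b j).2
    exact h1
  have h1 := iso_roots (Ω := Ω) (ρ g : Matrix (Fin n) (Fin n) k) J hJ hs hg C hinj _ heq hCiso
  rw [LinearMap.charpoly_toMatrix] at h1
  rw [charpoly_lin]
  exact h1

end sub

end Pool.Agent.NH52.SF
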