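import Pool.Agent.R932.SQ.Near

/-!
# Several polynomials close to rescalings of given ones: no isotropic relation
-/

set_option autoImplicit false
set_option linter.unusedSectionVars false

open Polynomial Filter Topology
open Pool.Agent.Y142.ZI Pool.Agent.Y142.ZD
open Pool.Agent.Y331.ZD (norm_map exists_mu exists_bd)
open Pool.Agent.R932.SQ (near_roots prod_near norm_two_le)

namespace Pool.Agent.NH52.SF

variable {ℓ : ℕ} [hℓ : Fact ℓ.Prime]

/-- an algebraic closure of the field of `ℓ`-adic numbers -/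
abbrev Lb (ℓ : ℕ) [Fact ℓ.Prime] : Type := AlgebraicClosure ℚ_[ℓ]

/-- the logarithm of a relation between numbers close to one -/
theorem core_log {α : Type} (A : Finset α) (hA : A.Nonempty) {la c' c₀ sL : Lb ℓ} (hla0 : la ≠ 0)
    (r φ z : α → Lb ℓ) {M μ : ℝ} (hM0 : 0 < M) (hlaM : ‖la‖ * M ^ 2 < μ / 3)
    (hlaM1 : ‖la‖ * M ≤ 1 / 3) (hzr : ∀ a ∈ A, z a = 1 + la * r a) (hrM : ∀ a ∈ A, ‖r a‖ ≤ M)
    (hφr : ∀ a ∈ A, ‖r a - φ a‖ < μ) (hs : sL = 1 + la * c') (hc'M : ‖c'‖ ≤ M)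
    (hcc : ‖c' - c₀‖ < μ) {n : ℕ} (hn : 0 < n)
    (hprod : (∏ a ∈ A, z a) ^ (2 * n) = sL ^ (A.card * n)) :
    ‖∑ a ∈ A, (2 * φ a - c₀)‖ < μ := by
  classical
  have hnice : ∏ a ∈ A, z a ^ 2 = sL ^ A.card := by
    have hsmall : ∀ (B : Finset α) (u : α → Lb ℓ), (∀ a ∈ B, ‖u a‖ ≤ 1 / 3) →
        ‖∏ a ∈ B, (1 + u a) - 1‖ ≤ 1 / 3 := by
      intro B u hu
      have h1 := prod_near B u (by norm_num : (0 : ℝ) ≤ 1 / 3) (by norm_num) hu
      have h2 : ‖∑ a ∈ B, u a‖ ≤ 1 / 3 :=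
        IsUltrametricDist.norm_sum_le_of_forall_le_of_nonneg (by norm_num) hu
      have h3 : ∏ a ∈ B, (1 + u a) - 1 = (∏ a ∈ B, (1 + u a) - 1 - ∑ a ∈ B, u a) +
        ∑ a ∈ B, u a := by ring
      rw [h3]
      refine (IsUltrametricDist.norm_add_le_max _ _).trans (max_le (h1.trans ?_) h2)
      norm_num
    have hu : ∀ a ∈ A, ‖2 * (la * r a) + (la * r a) ^ 2‖ ≤ 1 / 3 := by
      intro a ha
      have h1 : ‖la * r a‖ ≤ 1 / 3 := by
        rw [norm_mul]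
        exact (mul_le_mul_of_nonneg_left (hrM a ha) (norm_nonneg _)).trans hlaM1
      refine (IsUltrametricDist.norm_add_le_max _ _).trans (max_le ?_ ?_)
      · rw [norm_mul]
        have h2 : ‖(2 : Lb ℓ)‖ ≤ 1 := norm_two_le
        calc ‖(2 : Lb ℓ)‖ * ‖la * r a‖ ≤ 1 * (1 / 3) :=
              mul_le_mul h2 h1 (norm_nonneg _) (by norm_num)
          _ = 1 / 3 := one_mul _
      · rw [norm_pow]
        calc ‖la * r a‖ ^ 2 ≤ (1 / 3) ^ 2 := pow_le_pow_left₀ (norm_nonneg _) h1 2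
          _ ≤ 1 / 3 := by norm_num
    refine Pool.Agent.Y518.SS.nice _ _ n hn ?_ ?_ ?_
    · have h1 : ∏ a ∈ A, z a ^ 2 = ∏ a ∈ A, (1 + (2 * (la * r a) + (la * r a) ^ 2)) := by
        refine Finset.prod_congr rfl fun a ha => ?_
        rw [hzr a ha]
        ring
      rw [h1]
      exact hsmall A _ hu
    · have h1 : sL ^ A.card = ∏ a ∈ A, (1 + la * c') := by
        rw [Finset.prod_const, hs]
      rw [h1]
      refine hsmall A (fun _ => la * c') fun a _ => ?_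
      rw [norm_mul]
      exact (mul_le_mul_of_nonneg_left hc'M (norm_nonneg _)).trans hlaM1
    · rw [Finset.prod_pow, ← pow_mul, hprod, pow_mul]
  -- the logarithm
  set δ : ℝ := ‖la‖ * M with hδ
  have hδ0 : 0 ≤ δ := by positivity
  have hδ1 : δ ≤ 1 := by linarith
  have hlr : ∀ a ∈ A, ‖la * r a‖ ≤ δ := by
    intro a ha
    rw [norm_mul]
    exact mul_le_mul_of_nonneg_left (hrM a ha) (norm_nonneg _)
  have h2n : ‖(2 : Lb ℓ)‖ ≤ 1 := norm_two_le
  have hδ2 : δ ^ 2 ≤ δ := by nlinarith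
  have hu : ∀ a ∈ A, ‖2 * (la * r a) + (la * r a) ^ 2‖ ≤ δ := by
    intro a ha
    have h1 := hlr a ha
    refine (IsUltrametricDist.norm_add_le_max _ _).trans (max_le ?_ ?_)
    · rw [norm_mul]
      calc ‖(2 : Lb ℓ)‖ * ‖la * r a‖ ≤ 1 * δ := mul_le_mul h2n h1 (norm_nonneg _) (by norm_num)
        _ = δ := one_mul _
    · rw [norm_pow]
      exact (pow_le_pow_left₀ (norm_nonneg _) h1 2).trans hδ2
  have hp1 := prod_near A (fun a => 2 * (la * r a) + (la * r a) ^ 2) hδ0 hδ1 hu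
  have hp2 := prod_near A (fun _ => la * c') hδ0 hδ1 (fun a _ => by
    rw [norm_mul]
    exact mul_le_mul_of_nonneg_left hc'M (norm_nonneg _))
  have h1 : ∏ a ∈ A, z a ^ 2 = ∏ a ∈ A, (1 + (2 * (la * r a) + (la * r a) ^ 2)) := by
    refine Finset.prod_congr rfl fun a ha => ?_
    rw [hzr a ha]
    ring
  have h2 : sL ^ A.card = ∏ a ∈ A, (1 + la * c') := by
    rw [Finset.prod_const, hs]
  simp only [← h1, ← h2, hnice] at hp1 hp2
  have h3 : ‖(∑ a ∈ A, (2 * (la * r a) + (la * r a) ^ 2)) - ∑ a ∈ A, la * c'‖ ≤ δ ^ 2 := by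
    have h4 : (∑ a ∈ A, (2 * (la * r a) + (la * r a) ^ 2)) - ∑ a ∈ A, la * c' =
        (sL ^ A.card - 1 - ∑ a ∈ A, la * c') +
        -(sL ^ A.card - 1 - ∑ a ∈ A, (2 * (la * r a) + (la * r a) ^ 2)) := by ring
    rw [h4]
    refine (IsUltrametricDist.norm_add_le_max _ _).trans (max_le hp2 ?_)
    rw [norm_neg]
    exact hp1
  have h4 : ‖∑ a ∈ A, (la * r a) ^ 2‖ ≤ δ ^ 2 := by
    refine IsUltrametricDist.norm_sum_le_of_forall_le_of_nonneg (by positivity) fun a ha => ?_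
    rw [norm_pow]
    exact pow_le_pow_left₀ (norm_nonneg _) (hlr a ha) 2
  have h5 : ‖la * (∑ a ∈ A, (2 * r a - c'))‖ ≤ δ ^ 2 := by
    have h6 : la * (∑ a ∈ A, (2 * r a - c')) =
        ((∑ a ∈ A, (2 * (la * r a) + (la * r a) ^ 2)) - ∑ a ∈ A, la * c') +
        -(∑ a ∈ A, (la * r a) ^ 2) := by
      rw [Finset.mul_sum, ← Finset.sum_sub_distrib, ← Finset.sum_neg_distrib,
        ← Finset.sum_add_distrib]
      refine Finset.sum_congr rfl fun a _ => ?_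
      ring
    rw [h6]
    refine (IsUltrametricDist.norm_add_le_max _ _).trans (max_le h3 ?_)
    rw [norm_neg]
    exact h4
  have h6 : ‖∑ a ∈ A, (2 * r a - c')‖ < μ := by
    rw [norm_mul] at h5
    have hla' : 0 < ‖la‖ := norm_pos_iff.2 hla0
    have h7 : ‖la‖ * ‖∑ a ∈ A, (2 * r a - c')‖ ≤ ‖la‖ * (‖la‖ * M ^ 2) := by
      calc _ ≤ δ ^ 2 := h5
        _ = ‖la‖ * (‖la‖ * M ^ 2) := by rw [hδ]; ring
    have h8 := le_of_mul_le_mul_left h7 hla'
    have h9 : 0 ≤ ‖la‖ * M ^ 2 := by positivity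
    linarith
  have h8 : ∑ a ∈ A, (2 * φ a - c₀) = (∑ a ∈ A, (2 * r a - c')) +
      ∑ a ∈ A, (-(2 * (r a - φ a)) + (c' - c₀)) := by
    rw [← Finset.sum_add_distrib]
    refine Finset.sum_congr rfl fun a _ => ?_
    ring
  rw [h8]
  refine (IsUltrametricDist.norm_add_le_max _ _).trans_lt (max_lt h6 ?_)
  have h9 : ∀ a ∈ A, ‖-(2 * (r a - φ a)) + (c' - c₀)‖ < μ := by
    intro a ha
    refine (IsUltrametricDist.norm_add_le_max _ _).trans_lt (max_lt ?_ hcc)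
    rw [norm_neg, norm_mul]
    have h10 := hφr a ha
    calc ‖(2 : Lb ℓ)‖ * ‖r a - φ a‖ ≤ 1 * ‖r a - φ a‖ :=
          mul_le_mul_of_nonneg_right h2n (norm_nonneg _)
      _ < μ := by rw [one_mul]; exact h10
  obtain ⟨z₀, hz₀, hz₀'⟩ := IsUltrametricDist.exists_norm_finsetSum_le_of_nonempty hA
    (fun a => -(2 * (r a - φ a)) + (c' - c₀))
  exact hz₀'.trans_lt (h9 z₀ hz₀)

/-- no isotropic relation between the roots of the polynomials `R q`: the roots of each of them are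
simple, and `2 ∑_q ∑ I_q ≠ (∑_q |I_q|) c` for all sets `I_q` of roots, not all empty, which do not
contain `t` and `c - t` -/
def NoRelT {ι : Type} [Fintype ι] (R : ι → ℚ_[ℓ][X]) (c : ℚ_[ℓ]) : Prop :=
  (∀ q, (R q).Separable) ∧ ∀ I : ι → Finset (Lb ℓ), (∃ q, (I q).Nonempty) →
    (∀ q, ∀ t ∈ I q, aeval t (R q) = 0 ∧ algebraMap ℚ_[ℓ] (Lb ℓ) c - t ∉ I q) →
    2 * ∑ q, ∑ t ∈ I q, t ≠ ((∑ q, (I q).card : ℕ) : Lb ℓ) * algebraMap ℚ_[ℓ] (Lb ℓ) c

/-- **no isotropic relation close to `1`** -/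
theorem no_relT {ι : Type} [Fintype ι] {R : ι → ℚ_[ℓ][X]} (hm : ∀ q, (R q).Monic) {c : ℚ_[ℓ]}
    (hno : NoRelT R c) :
    ∃ (ε : ℝ) (k₀ : ℕ), 0 < ε ∧ ∀ (k : ℕ) (Q : ι → ℚ_[ℓ][X]) (s : ℚ_[ℓ]), k₀ ≤ k →
      (∀ q, (Q q).Monic ∧ (Q q).natDegree = (R q).natDegree ∧
        ∀ j, ‖(resc ℓ k (Q q) - R q).coeff j‖ < ε) →
      ‖((ℓ : ℚ_[ℓ]) ^ k)⁻¹ * (s - 1) - c‖ < ε →
      ∀ (m : ι → Multiset (Lb ℓ)) (n : ℕ), (∃ q, m q ≠ 0) → 0 < n →
        (∀ q, m q + (m q).map (fun z => algebraMap ℚ_[ℓ] (Lb ℓ) s / z) ≤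
          ((Q q).map (algebraMap ℚ_[ℓ] (Lb ℓ))).roots) →
        (∏ q, (m q).prod) ^ (2 * n) ≠ (algebraMap ℚ_[ℓ] (Lb ℓ) s) ^ ((∑ q, (m q).card) * n) := by
  classical
  obtain ⟨hsep, hno⟩ := hno
  set L := AlgebraicClosure ℚ_[ℓ] with hL
  set i : ℚ_[ℓ] →+* L := algebraMap ℚ_[ℓ] L with hi
  have hnorm : ∀ x : ℚ_[ℓ], ‖i x‖ = ‖x‖ := norm_map
  let J : ι → Type := fun q => {r : L // r ∈ ((R q).map i).roots.toFinset}
  have hrootJ : ∀ (q : ι) (t : L), aeval t (R q) = 0 → t ∈ ((R q).map i).roots.toFinset := by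
    intro q t ht
    rw [Multiset.mem_toFinset, mem_roots ((hm q).map i).ne_zero, IsRoot, eval_map, ← aeval_def]
    exact ht
  obtain ⟨M₀, hM1, hM⟩ := exists_bd (fun j : (Σ q, J q) => ‖(j.2.1 : L)‖)
  obtain ⟨μ₁, hμ10, hμ11, hμ1⟩ := exists_mu
    (fun x : (Σ q, J q × J q) => ‖(x.2.1.1 : L) + x.2.2.1 - i c‖)
    (fun x => (x.2.1.1 : L) + x.2.2.1 - i c ≠ 0) (fun x hx => norm_pos_iff.mpr hx)
  obtain ⟨μ₂, hμ20, hμ21, hμ2⟩ := exists_mu
    (fun x : (∀ q, Finset (J q)) =>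
      ‖2 * ∑ q, ∑ t ∈ x q, (t.1 : L) - ((∑ q, (x q).card : ℕ) : L) * i c‖)
    (fun x => 2 * ∑ q, ∑ t ∈ x q, (t.1 : L) - ((∑ q, (x q).card : ℕ) : L) * i c ≠ 0)
    (fun x hx => norm_pos_iff.mpr hx)
  set M : ℝ := max M₀ (‖c‖ + 1) with hMdef
  have hMM : M₀ ≤ M := le_max_left _ _
  have hM1' : 1 ≤ M := hM1.trans hMM
  have hMc : ‖c‖ + 1 ≤ M := le_max_right _ _
  have hM0 : 0 < M := by linarith
  set μ : ℝ := min μ₁ μ₂ with hμdef
  have hμ0 : 0 < μ := lt_min hμ10 hμ20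
  have hμ1' : μ ≤ 1 := (min_le_left _ _).trans hμ11
  have hnear0 : ∀ q, ∃ ε : ℝ, 0 < ε ∧ ∀ (k : ℕ) (Q : ℚ_[ℓ][X]), Q.Monic →
      Q.natDegree = (R q).natDegree → (∀ j, ‖(resc ℓ k Q - R q).coeff j‖ < ε) →
      Q.Separable ∧ ∃ φ : L → L, ∀ x, aeval x Q = 0 → aeval (φ x) (R q) = 0 ∧
        ‖(x - 1) / (algebraMap ℚ_[ℓ] L ((ℓ : ℚ_[ℓ]) ^ k)) - φ x‖ < μ ∧
        ∀ y, aeval y Q = 0 → φ x = φ y → x = y := fun q => near_roots (R q) (hm q) (hsep q) hμ0
  choose ε₁ hε₁ hnear using hnear0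
  obtain ⟨ε₂, hε20, -, hε2⟩ := exists_mu ε₁ (fun _ => True) (fun q _ => hε₁ q)
  have hℓ1 : (1 : ℝ) < ℓ := by exact_mod_cast (Fact.out : ℓ.Prime).one_lt
  have hinv1 : (ℓ : ℝ)⁻¹ < 1 := inv_lt_one_of_one_lt₀ hℓ1
  have hinv0 : 0 < (ℓ : ℝ)⁻¹ := inv_pos.2 (by linarith)
  obtain ⟨k₀, hk₀⟩ := exists_pow_lt_of_lt_one
    (show 0 < μ / 3 / M ^ 2 by positivity) hinv1
  refine ⟨min ε₂ μ, k₀, lt_min hε20 hμ0, ?_⟩
  intro k Q s hk hQ hs m n hm0 hn hle hprod
  have hφ0 : ∀ q, (Q q).Separable ∧ ∃ φ : L → L, ∀ x, aeval x (Q q) = 0 →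
      aeval (φ x) (R q) = 0 ∧
        ‖(x - 1) / (algebraMap ℚ_[ℓ] L ((ℓ : ℚ_[ℓ]) ^ k)) - φ x‖ < μ ∧
        ∀ y, aeval y (Q q) = 0 → φ x = φ y → x = y := fun q => hnear q k (Q q) (hQ q).1 (hQ q).2.1
    (fun j => ((hQ q).2.2 j).trans_le ((min_le_left _ _).trans (hε2 q trivial)))
  choose hQsep φ hφ using hφ0
  have hs' : ‖((ℓ : ℚ_[ℓ]) ^ k)⁻¹ * (s - 1) - c‖ < μ := hs.trans_le (min_le_right _ _)
  have hLk : ((ℓ : ℚ_[ℓ]) ^ k) ≠ 0 := ell_pow_ne k
  set la : L := i ((ℓ : ℚ_[ℓ]) ^ k) with hla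
  have hla0 : la ≠ 0 := (_root_.map_ne_zero _).2 hLk
  have hlan : ‖la‖ < μ / 3 / M ^ 2 := by
    rw [hla, hnorm, norm_pow, Padic.norm_p]
    exact (pow_le_pow_of_le_one hinv0.le hinv1.le hk).trans_lt hk₀
  have hlaM : ‖la‖ * M ^ 2 < μ / 3 := by
    rwa [lt_div_iff₀ (by positivity)] at hlan
  have hlaM1 : ‖la‖ * M ≤ 1 / 3 := by
    have h1 : ‖la‖ * M ≤ ‖la‖ * M ^ 2 := by
      refine mul_le_mul_of_nonneg_left ?_ (norm_nonneg _)
      nlinarith
    linarith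
  -- the number `s`
  obtain ⟨c', hc'⟩ : ∃ c' : L, i s = 1 + la * c' := by
    refine ⟨(i s - 1) / la, ?_⟩
    rw [mul_div_cancel₀ _ hla0]
    ring
  have hcc : ‖c' - i c‖ < μ := by
    have h1 : c' - i c = i (((ℓ : ℚ_[ℓ]) ^ k)⁻¹ * (s - 1) - c) := by
      rw [map_sub, map_mul, map_inv₀, map_sub, map_one, hc', ← hla, add_sub_cancel_left,
        inv_mul_cancel_left₀ hla0]
    rw [h1, hnorm]
    exact hs'
  have hc'M : ‖c'‖ ≤ M := by
    have h1 : c' = (c' - i c) + i c := by ring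
    rw [h1]
    refine (IsUltrametricDist.norm_add_le_max _ _).trans (max_le ?_ ?_)
    · linarith
    · rw [hnorm]
      have := norm_nonneg c
      linarith
  -- the roots of `Q`
  have hnd : ∀ q, ((Q q).map i).roots.Nodup := fun q => nodup_roots (hQsep q).map
  have hmemQ : ∀ q, ∀ z ∈ ((Q q).map i).roots, aeval z (Q q) = 0 := by
    intro q z hz
    rw [mem_roots ((hQ q).1.map i).ne_zero, IsRoot, eval_map, ← aeval_def] at hz
    exact hz
  have hnd2 : ∀ q, (m q).Nodup ∧ Disjoint (m q) ((m q).map fun z => i s / z) := by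
    intro q
    have h1 := Multiset.nodup_of_le (hle q) (hnd q)
    rw [Multiset.nodup_add] at h1
    exact ⟨h1.1, h1.2.2⟩
  have hmQ : ∀ q, ∀ z ∈ m q, aeval z (Q q) = 0 := fun q z hz =>
    hmemQ q z (Multiset.mem_of_le (hle q) (Multiset.mem_add.2 (Or.inl hz)))
  have hmQ' : ∀ q, ∀ z ∈ m q, aeval (i s / z) (Q q) = 0 := fun q z hz =>
    hmemQ q _ (Multiset.mem_of_le (hle q)
      (Multiset.mem_add.2 (Or.inr (Multiset.mem_map_of_mem _ hz))))
  set r : L → L := fun z => (z - 1) / la with hr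
  have hzr : ∀ z, z = 1 + la * r z := by
    intro z
    simp only [hr]
    rw [mul_div_cancel₀ _ hla0]
    ring
  have hφr : ∀ (q : ι) (z : L), aeval z (Q q) = 0 → ‖r z - φ q z‖ < μ :=
    fun q z hz => (hφ q z hz).2.1
  have hφM : ∀ (q : ι) (z : L), aeval z (Q q) = 0 → ‖φ q z‖ ≤ M := fun q z hz =>
    (hM ⟨q, ⟨φ q z, hrootJ q _ (hφ q z hz).1⟩⟩).trans hMM
  have hrM : ∀ (q : ι) (z : L), aeval z (Q q) = 0 → ‖r z‖ ≤ M := by
    intro q z hz
    have h1 : r z = (r z - φ q z) + φ q z := by ring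
    rw [h1]
    exact (IsUltrametricDist.norm_add_le_max _ _).trans
      (max_le ((hφr q z hz).le.trans (hμ1'.trans hM1')) (hφM q z hz))
  have hz0 : ∀ (q : ι) (z : L), aeval z (Q q) = 0 → z ≠ 0 := by
    intro q z hz h0
    have h1 : ‖la * r z‖ ≤ 1 / 3 := by
      rw [norm_mul]
      exact (mul_le_mul_of_nonneg_left (hrM q z hz) (norm_nonneg _)).trans hlaM1
    have h2 : la * r z = -1 := by
      have h3 := hzr z
      rw [h0] at h3
      rw [h0]
      linear_combination -h3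
    rw [h2, norm_neg, norm_one] at h1
    norm_num at h1
  -- the sets of roots of `R`
  set A : ι → Finset L := fun q => (m q).toFinset with hA
  have hAm : ∀ q z, z ∈ A q ↔ z ∈ m q := fun q z => Multiset.mem_toFinset
  have hcardA : ∀ q, (A q).card = (m q).card := fun q =>
    Multiset.toFinset_card_of_nodup (hnd2 q).1
  have hinj : ∀ q, Set.InjOn (φ q) (A q) := fun q z hz y hy h =>
    (hφ q z (hmQ q z ((hAm q z).1 hz))).2.2 y (hmQ q y ((hAm q y).1 hy)) h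
  set I : ι → Finset L := fun q => (A q).image (φ q) with hI
  have hcardI : ∀ q, (I q).card = (m q).card := fun q => by
    rw [hI]
    show ((A q).image (φ q)).card = _
    rw [Finset.card_image_of_injOn (hinj q), hcardA]
  have hIne : ∃ q, (I q).Nonempty := by
    obtain ⟨q, hq⟩ := hm0
    refine ⟨q, ?_⟩
    rw [← Finset.card_pos, hcardI, Multiset.card_pos]
    exact hq
  have hdual : ∀ q, ∀ t ∈ I q, aeval t (R q) = 0 ∧ i c - t ∉ I q := by
    intro q t ht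
    obtain ⟨z, hz, rfl⟩ := Finset.mem_image.1 ht
    rw [hAm] at hz
    refine ⟨(hφ q z (hmQ q z hz)).1, fun hmem => ?_⟩
    obtain ⟨y, hy, hyz⟩ := Finset.mem_image.1 hmem
    rw [hAm] at hy
    set z' : L := i s / z with hz'
    have hzQ := hmQ q z hz
    have hz'Q : aeval z' (Q q) = 0 := hmQ' q z hz
    have h1 : z * z' = i s := by
      rw [hz']
      exact mul_div_cancel₀ _ (hz0 q z hzQ)
    have h2 : r z + r z' + la * (r z * r z') = c' := by
      have h3 : (1 + la * r z) * (1 + la * r z') = 1 + la * c' := by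
        rw [← hzr z, ← hzr z', h1, hc']
      have h4 : la * (r z + r z' + la * (r z * r z')) = la * c' := by linear_combination h3
      exact mul_left_cancel₀ hla0 h4
    have h3 : ‖φ q z + φ q z' - i c‖ < μ := by
      have h4 : φ q z + φ q z' - i c = -(r z - φ q z) + (-(r z' - φ q z') + ((c' - i c) +
          -(la * (r z * r z')))) := by linear_combination h2
      rw [h4]
      have h5 : ‖-(la * (r z * r z'))‖ < μ := by
        rw [norm_neg, norm_mul, norm_mul]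
        calc ‖la‖ * (‖r z‖ * ‖r z'‖) ≤ ‖la‖ * (M * M) :=
              mul_le_mul_of_nonneg_left (mul_le_mul (hrM q z hzQ) (hrM q z' hz'Q) (norm_nonneg _)
                hM0.le) (norm_nonneg _)
          _ = ‖la‖ * M ^ 2 := by ring
          _ < μ / 3 := hlaM
          _ < μ := by linarith
      refine (IsUltrametricDist.norm_add_le_max _ _).trans_lt (max_lt ?_ ?_)
      · rw [norm_neg]; exact hφr q z hzQ
      refine (IsUltrametricDist.norm_add_le_max _ _).trans_lt (max_lt ?_ ?_)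
      · rw [norm_neg]; exact hφr q z' hz'Q
      exact (IsUltrametricDist.norm_add_le_max _ _).trans_lt (max_lt hcc h5)
    have h4 : φ q z + φ q z' - i c = 0 := by
      by_contra hne
      have h5 := hμ1 ⟨q, (⟨φ q z, hrootJ q _ (hφ q z hzQ).1⟩,
        ⟨φ q z', hrootJ q _ (hφ q z' hz'Q).1⟩)⟩ hne
      exact absurd h3 (not_lt.mpr ((min_le_left _ _).trans h5))
    have h5 : φ q z' = φ q y := by rw [hyz]; linear_combination h4
    have h6 := (hφ q z' hz'Q).2.2 y (hmQ q y hy) h5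
    refine Multiset.disjoint_left.1 (hnd2 q).2 hy ?_
    rw [← h6]
    exact Multiset.mem_map_of_mem (fun z => i s / z) hz
  refine hno I hIne hdual ?_
  -- the pairs
  let B : Finset (Σ _ : ι, L) := Finset.univ.sigma A
  have hBm : ∀ a ∈ B, aeval a.2 (Q a.1) = 0 := by
    intro a ha
    exact hmQ a.1 a.2 ((hAm _ _).1 (Finset.mem_sigma.1 ha).2)
  have hBcard : B.card = ∑ q, (m q).card := by
    rw [Finset.card_sigma]
    exact Finset.sum_congr rfl fun q _ => hcardA q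
  have hBne : B.Nonempty := by
    rw [← Finset.card_pos, hBcard]
    obtain ⟨q, hq⟩ := hm0
    exact lt_of_lt_of_le (Multiset.card_pos.2 hq)
      (Finset.single_le_sum (f := fun q => (m q).card) (fun _ _ => Nat.zero_le _)
        (Finset.mem_univ q))
  have hBprod : ∏ a ∈ B, a.2 = ∏ q, (m q).prod := by
    rw [Finset.prod_sigma]
    refine Finset.prod_congr rfl fun q _ => ?_
    show ∏ z ∈ (m q).toFinset, z = _
    rw [Finset.prod, Multiset.toFinset_val, Multiset.dedup_eq_self.mpr (hnd2 q).1,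
      Multiset.map_id']
  have hlog := core_log B hBne hla0 (fun a => r a.2) (fun a => φ a.1 a.2) (fun a => a.2) hM0 hlaM
    hlaM1 (fun a _ => hzr a.2) (fun a ha => hrM a.1 a.2 (hBm a ha))
    (fun a ha => hφr a.1 a.2 (hBm a ha)) hc' hc'M hcc hn (by rw [hBprod, hBcard]; exact hprod)
  have h8 : 2 * ∑ q, ∑ t ∈ I q, t - ((∑ q, (I q).card : ℕ) : L) * i c =
      ∑ a ∈ B, (2 * φ a.1 a.2 - i c) := by
    rw [Finset.sum_sub_distrib, Finset.sum_const, nsmul_eq_mul, ← Finset.mul_sum,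
      Finset.sum_sigma, hBcard, Finset.sum_congr rfl fun q _ => hcardI q]
    have h9 : ∀ q, ∑ t ∈ I q, t = ∑ z ∈ A q, φ q z := fun q => Finset.sum_image (hinj q)
    rw [Finset.sum_congr rfl fun q _ => h9 q]
  rw [← h8] at hlog
  by_contra hne
  -- transfer to finsets of roots
  let I' : ∀ q, Finset (J q) := fun q => Finset.univ.filter fun j => j.1 ∈ I q
  have h9 : ∀ q, (I' q).image (fun j : J q => j.1) = I q := by
    intro q
    ext t
    rw [Finset.mem_image]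
    constructor
    · rintro ⟨j, hj, rfl⟩
      exact (Finset.mem_filter.1 hj).2
    · intro ht
      exact ⟨⟨t, hrootJ q _ (hdual q t ht).1⟩, Finset.mem_filter.2 ⟨Finset.mem_univ _, ht⟩, rfl⟩
  have h10 : ∀ q, ∑ t ∈ I q, t = ∑ j ∈ I' q, j.1 := by
    intro q
    rw [← h9 q, Finset.sum_image fun a _ b _ h => Subtype.ext h]
  have h11 : ∀ q, (I q).card = (I' q).card := by
    intro q
    conv_lhs => rw [← h9 q, Finset.card_image_of_injOn fun a _ b _ h => Subtype.ext h]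
  have h12 : 2 * ∑ q, ∑ t ∈ I q, t - ((∑ q, (I q).card : ℕ) : L) * i c =
      2 * ∑ q, ∑ t ∈ I' q, (t.1 : L) - ((∑ q, (I' q).card : ℕ) : L) * i c := by
    rw [Finset.sum_congr rfl fun q _ => h10 q, Finset.sum_congr rfl fun q _ => h11 q]
  rw [h12] at hlog
  have h13 := hμ2 I' (by
    rw [← h12]
    exact fun h => hne (sub_eq_zero.1 h))
  exact absurd hlog (not_lt.2 ((min_le_right _ _).trans h13))

end Pool.Agent.NH52.SF
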