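import Pool.Agent.NH52.SF.Spl

/-!
# Systems without isotropic relations have no isotropic stable subspaces
-/

set_option autoImplicit false
set_option linter.unusedSectionVars false

namespace Pool.Agent.NH52.SF

open Module Polynomial NumberField Pool.Agent.Y800 Pool.Agent.R390.SF
open Pool.Agent.Y126.SH (chi)

attribute [local instance] Subgroup.fintypeQuotientOfFiniteIndex

variable {F : SubFld ℚ} [hF : FiniteDimensional ℚ F] {n : ℕ} {S : Finset ℕ} {w : ℕ}
  {T : IntegralSystem F n} {ℓ : ℕ} [hℓ : Fact ℓ.Prime]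
  {k : Type} [Field k] [TopologicalSpace k] [IsTopologicalRing k] (ψ : ℤ_[ℓ] →+* k)

/-- **There are no isotropic stable subspaces.** -/
theorem noiso_gen (hψ : Continuous ψ) (hk : HasMink k) (hT : T.PureSystem S w) {c : ℕ}
    {J : Matrix (Fin n) (Fin n) k} (hJdet : J.det ≠ 0)
    (hJ : ∀ g : F.fixingSubgroup, (chik ψ g : k) ^ w •
      ((rep ψ T g : Matrix (Fin n) (Fin n) k).transpose * J * rep ψ T g) = J)
    (hw : WeightsAt F (rep ψ T) (fun g => ψ (chi ℓ g : ℤ_[ℓ])) ℓ c)
    {p₀ : ℕ} (hp₀ : p₀.Prime) (hp₀S : p₀ ∉ S) (hp₀ℓ : ℓ ≠ p₀) {P₀ : Ideal ZBar}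
    (hP₀ : P₀.IsMaximal) (hpP₀ : (p₀ : ZBar) ∈ P₀) {σ₀ : GQ} (hσ₀ : IsGeomFrob p₀ P₀ σ₀)
    (hσc₀ : σ₀ ∈ (F.fixingSubgroup).normalCore) {M : ℤ} (hMk : (M : k) ≠ 0)
    (hM : ∀ (Ω : Type) [Field Ω] [IsAlgClosed Ω], (M : Ω) ≠ 0 →
      ∀ (A : (GQ ⧸ F.fixingSubgroup) → Multiset Ω) (a : ℕ),
        a ≤ expo F.fixingSubgroup * (finrank ℚ F * c) →
        (∀ q, A q ≤ ((T.poly ((cj q.out P₀).under (𝓞 F))).map (Int.castRingHom Ω)).roots) →
        ∏ q, (A q).prod ^ expo F.fixingSubgroup = (p₀ : Ω) ^ a →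
          a * 2 = ∑ q, expo F.fixingSubgroup * (w * Multiset.card (A q)))
    (hno : ∀ d : ℕ, 0 < d → 2 * d ≤ n → Even (w * d * finrank ℚ F) →
      ∃ (p : ℕ) (v : Fin (finrank ℚ F) → Ideal (𝓞 F)), p.Prime ∧ p ∉ S ∧ ℓ ≠ p ∧
        SplitsInto F p v ∧ ¬ IsotropicRelation (AlgebraicClosure k) (fun i => T.poly (v i)) (p ^ w) d
          (expo F.fixingSubgroup)) :
    NoIso (rep ψ T) J := by
  classical
  intro U hU hiso
  by_contra hne
  have hd0 : 0 < finrank k U := by
    rw [Nat.pos_iff_ne_zero]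
    intro h0
    exact hne (Submodule.finrank_eq_zero.1 h0)
  obtain ⟨a, ha2, hafr⟩ := weight_sub ψ hψ hk hT hw hp₀ hp₀S hp₀ℓ hP₀ hpP₀ hσ₀ hσc₀ hMk hM U hU
  -- the dimension
  have hdn : 2 * finrank k U ≤ n := by
    have h1 : ((rep ψ T 1 : GL (Fin n) k) : Matrix (Fin n) (Fin n) k).transpose * J *
        ((rep ψ T 1 : GL (Fin n) k) : Matrix (Fin n) (Fin n) k) = (1 : k) • J := by
      rw [map_one, Units.val_one, Matrix.transpose_one, one_mul, mul_one, one_smul]
    have h2 := iso_sub (Ω := AlgebraicClosure k) hJdet hU hiso one_ne_zero h1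
    have h3 := Multiset.card_le_card h2
    rw [Multiset.card_add, Multiset.card_map] at h3
    have h4 : Multiset.card (((lin (rep ψ T) 1).restrict (hU 1)).charpoly.aroots
        (AlgebraicClosure k)) = finrank k U := by
      rw [aroots_def, IsAlgClosed.card_roots_eq_natDegree, natDegree_map,
        LinearMap.charpoly_natDegree]
    have h5 : Multiset.card ((lin (rep ψ T) 1).charpoly.aroots (AlgebraicClosure k)) = n := by
      rw [aroots_def, IsAlgClosed.card_roots_eq_natDegree, natDegree_map,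
        LinearMap.charpoly_natDegree, finrank_fin_fun]
    omega
  have heven : Even (w * finrank k U * finrank ℚ F) := by
    refine ⟨a, ?_⟩
    have : w * finrank k U * finrank ℚ F = w * (finrank ℚ F * finrank k U) := by ring
    omega
  obtain ⟨p, v, hp, hpS, hpℓ, hv, hrel⟩ := hno _ hd0 hdn heven
  apply hrel
  obtain ⟨P, σ, hP, hpP, hσ⟩ := exists_geom hp
  obtain ⟨e, he⟩ := exists_equiv hp hv hP hpP
  have hσc := mem_core hp hv hP hpP hσ
  let y : (GQ ⧸ F.fixingSubgroup) → F.fixingSubgroup := fun q => ⟨q.out⁻¹ * σ * q.out,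
    core_conj hσc q.out⟩
  have hy : ∀ q, IsGeomFrob p (cj q.out P) (y q) := fun q => cj_frob hσ
  have hzy : ∀ q, zz σ q = y q ^ expo F.fixingSubgroup := by
    intro q
    apply Subtype.ext
    show q.out⁻¹ * σ ^ expo F.fixingSubgroup * q.out = ((y q ^ expo F.fixingSubgroup :
      F.fixingSubgroup) : GQ)
    rw [SubmonoidClass.coe_pow]
    show _ = (q.out⁻¹ * σ * q.out) ^ expo F.fixingSubgroup
    have h3 := conj_pow (i := expo F.fixingSubgroup) (a := (q.out)⁻¹) (b := σ)
    rw [inv_inv] at h3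
    exact h3.symm
  have hUy : ∀ q, U ≤ U.comap (lin (rep ψ T) (y q)) := fun q u hu => hU (y q) u hu
  have hroots := fun q => Pool.Agent.Y126.MD.roots_sub (Ω := AlgebraicClosure k) (hUy q)
  have hpoly : ∀ q, (lin (rep ψ T) (y q)).charpoly.aroots (AlgebraicClosure k) =
      ((T.poly ((cj q.out P).under (𝓞 F))).map (Int.castRingHom (AlgebraicClosure k))).roots := by
    intro q
    rw [charpoly_frob ψ hT.toGoodSystem hp hpS hpℓ (cj_max hP) (cj_nat.2 hpP) (hy q), aroots_def,
      Polynomial.map_map]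
    congr 2
  -- the factor of the similitude
  have hpk : (p : k) ≠ 0 := by
    intro h0
    have h1 := chik_frob (ψ := ψ) hp hpℓ hP hpP hσ
    rw [h0] at h1
    simp at h1
  have hsim : ∀ q, ((rep ψ T (y q) : GL (Fin n) k) : Matrix (Fin n) (Fin n) k).transpose * J *
      ((rep ψ T (y q) : GL (Fin n) k) : Matrix (Fin n) (Fin n) k) = ((p ^ w : ℕ) : k) • J := by
    intro q
    have h1 := hJ (y q)
    have h2 : (chik ψ ((y q : F.fixingSubgroup) : GQ) : k) * p = 1 :=
      chik_frob (ψ := ψ) hp hpℓ (cj_max hP) (cj_nat.2 hpP) (hy q)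
    have h3 : ((p ^ w : ℕ) : k) * (chik ψ ((y q : F.fixingSubgroup) : GQ) : k) ^ w = 1 := by
      rw [Nat.cast_pow, ← mul_pow, mul_comm, h2, one_pow]
    conv_rhs => rw [← h1]
    rw [smul_smul, h3, one_smul]
  have hs : ((p ^ w : ℕ) : k) ≠ 0 := by
    rw [Nat.cast_pow]
    exact pow_ne_zero _ hpk
  have hcard : Fintype.card (Fin (finrank ℚ F)) = finrank ℚ F := Fintype.card_fin _
  refine ⟨fun i => ((lin (rep ψ T) (y (e i))).restrict (hUy (e i))).charpoly.aroots
    (AlgebraicClosure k), fun i => ⟨(hroots (e i)).2.2, ?_⟩, ?_⟩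
  · have h1 := iso_sub (Ω := AlgebraicClosure k) hJdet hU hiso hs (hsim (e i))
    rw [hpoly (e i), he (e i), Equiv.symm_apply_apply, map_natCast] at h1
    exact h1
  · have h6 := congrArg (algebraMap k (AlgebraicClosure k)) (hafr p hp hpℓ P hP hpP σ hσ)
    rw [map_prod, map_pow, map_natCast] at h6
    have h7 : ∏ i, (((lin (rep ψ T) (y (e i))).restrict (hUy (e i))).charpoly.aroots
        (AlgebraicClosure k)).prod = ∏ q, (((lin (rep ψ T) (y q)).restrict (hUy q)).charpoly.aroots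
        (AlgebraicClosure k)).prod :=
      e.prod_comp fun q => (((lin (rep ψ T) (y q)).restrict (hUy q)).charpoly.aroots
        (AlgebraicClosure k)).prod
    have h8 : (∏ q, (((lin (rep ψ T) (y q)).restrict (hUy q)).charpoly.aroots
        (AlgebraicClosure k)).prod) ^ expo F.fixingSubgroup =
        (p : AlgebraicClosure k) ^ (expo F.fixingSubgroup * a) := by
      rw [← h6, ← Finset.prod_pow]
      refine Finset.prod_congr rfl fun q _ => ?_
      rw [(hroots q).2.1, hzy q, map_pow, Units.val_pow_eq_pow_val, map_pow]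
      rfl
    rw [h7, mul_comm 2, pow_mul, h8, hcard, Nat.cast_pow, ← pow_mul, ← pow_mul]
    congr 1
    have h9 : a * 2 = w * (finrank ℚ F * finrank k U) := ha2
    calc expo F.fixingSubgroup * a * 2 = expo F.fixingSubgroup * (a * 2) := by ring
      _ = w * (finrank ℚ F * finrank k U * expo F.fixingSubgroup) := by rw [h9]; ring

end Pool.Agent.NH52.SF
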