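import Pool.Agent.R390.SF.PolMain

/-!
# Isotropic relations between the roots of several polynomials, modulo almost all primes
-/

set_option autoImplicit false

namespace Pool.Agent.NH52.SF

open Polynomial NumberField Pool.Agent.Y800 Pool.Agent.Y126.SH

/-- An isotropic relation of size `d` between the roots in `Ω` of the polynomials `P j`, `j ∈ J`: a
choice of `d` roots of each of the polynomials, such that the chosen roots `z` together with the
numbers `s / z` are (with multiplicities) among the roots of `P j`, and such that the product of all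
the chosen roots is a square root of `s ^ (|J| d)`, up to a root of unity of order `2 m`. -/
def IsotropicRelation {J : Type} [Fintype J] (Ω : Type) [Field Ω] (P : J → ℤ[X]) (s d m : ℕ) :
    Prop :=
  ∃ A : J → Multiset Ω,
    (∀ j, Multiset.card (A j) = d ∧
      A j + (A j).map (fun z => (s : Ω) / z) ≤ ((P j).map (Int.castRingHom Ω)).roots) ∧
    (∏ j, (A j).prod) ^ (2 * m) = (s : Ω) ^ (Fintype.card J * d * m)

/-- In almost all characteristics isotropic relations come from isotropic relations between the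
complex roots. -/
theorem rel_gen {J : Type} [Fintype J] [hJ : Nonempty J] (P : J → ℤ[X]) (hP : ∀ j, (P j).Monic)
    (hP0 : ∀ j, (P j).coeff 0 ≠ 0) (s m : ℕ) :
    ∃ M : ℤ, M ≠ 0 ∧ ∀ (Ω : Type) [Field Ω] [IsAlgClosed Ω], (M : Ω) ≠ 0 →
      ∀ d, IsotropicRelation Ω P s d m → IsotropicRelation ℂ P s d m := by
  classical
  have hR0 : ∀ j, ∃ R : Multiset ZBar,
    (P j).map (algebraMap ℤ ZBar) = (R.map fun r => X - C r).prod := fun j => exists_roots (hP j)
  choose R hR using hR0
  let B : ℕ := ∑ j, Multiset.card (R j)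
  let E1 : Finset ZBar := ((Fintype.piFinset fun j => (R j).powerset.toFinset) ×ˢ
      Finset.range (B + 1)).image
      fun x : (J → Multiset ZBar) × ℕ => (∏ j, (x.1 j).prod) ^ (2 * m) -
        (s : ZBar) ^ (Fintype.card J * x.2 * m)
  let E2 : Finset ZBar := Finset.univ.biUnion fun j =>
    ((R j).toFinset ×ˢ (R j).toFinset).image fun x : ZBar × ZBar => x.1 * x.2 - (s : ZBar)
  let E3 : Finset ZBar := Finset.univ.biUnion fun j => (R j).toFinset
  let E : Finset ZBar := E1 ∪ (E2 ∪ E3)
  have hm : ∀ e : ZBar, ∃ m : ℤ, e ≠ 0 → (m ≠ 0 ∧ ∃ r, e * r = m) := by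
    intro e
    by_cases he : e = 0
    · exact ⟨0, fun h => absurd he h⟩
    · obtain ⟨m, r, h1, h2⟩ := exists_int_mul he
      exact ⟨m, fun _ => ⟨h1, r, h2⟩⟩
  choose μ hμ using hm
  refine ⟨∏ e ∈ E.filter (fun e => e ≠ 0), μ e, ?_, ?_⟩
  · rw [Finset.prod_ne_zero_iff]
    intro e he
    exact (hμ e (Finset.mem_filter.1 he).2).1
  intro Ω _ _ hM d ⟨A, hA, hprod⟩
  obtain ⟨ψ, hψ⟩ := extend_gen (R := ℤ) (S := ZBar) (k := Ω) (Int.castRingHom Ω)
  have hψi : ∀ i : ℤ, ψ (i : ZBar) = (i : Ω) := fun i => map_intCast ψ i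
  have hgood : ∀ e ∈ E, ψ e = 0 → e = 0 := by
    intro e he h0
    by_contra hne
    apply hM
    rw [Int.cast_prod]
    apply Finset.prod_eq_zero (Finset.mem_filter.2 ⟨he, hne⟩)
    obtain ⟨_, r, hr⟩ := hμ e hne
    rw [← hψi, ← hr, map_mul, h0, zero_mul]
  obtain ⟨i, _⟩ := extend_gen (R := ℤ) (S := ZBar) (k := ℂ) (Int.castRingHom ℂ)
  -- the roots are not zero
  have hR0 : ∀ j, ∀ r ∈ R j, r ≠ 0 := by
    intro j r hr h0
    apply hP0 j
    have h1 : (P j).map (algebraMap ℤ ZBar) = ((R j).map fun r => X - C r).prod := hR j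
    have h2 := congrArg (Polynomial.eval 0) h1
    rw [Polynomial.eval_map_algebraMap, Polynomial.eval_multiset_prod, Multiset.map_map] at h2
    have h3 : (0 : ZBar) ∈ (R j).map (eval 0 ∘ fun r => X - C r) := by
      refine Multiset.mem_map.2 ⟨r, hr, ?_⟩
      simp [h0]
    rw [Multiset.prod_eq_zero h3, ← map_zero (algebraMap ℤ ZBar), aeval_algebraMap_apply,
      coe_aeval_eq_eval] at h2
    have h4 := (FaithfulSMul.algebraMap_injective ℤ ZBar) h2
    rwa [← coeff_zero_eq_eval_zero] at h4
  have hψR : ∀ j, ∀ r ∈ R j, ψ r ≠ 0 := by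
    intro j r hr h0
    refine hR0 j r hr (hgood r ?_ h0)
    refine Finset.mem_union_right _ (Finset.mem_union_right _ ?_)
    exact Finset.mem_biUnion.2 ⟨j, Finset.mem_univ j, Multiset.mem_toFinset.2 hr⟩
  -- lifts
  have hex : ∀ j, ∃ T T' : Multiset ZBar, T + T' ≤ R j ∧ T.map ψ = A j ∧
      T'.map ψ = (A j).map fun z => (s : Ω) / z := by
    intro j
    have h1 := (hA j).2
    rw [roots_map (hR j) ψ] at h1
    obtain ⟨T2, h2, h3⟩ := exists_le_map ψ _ (R j) h1
    obtain ⟨T, h4, h5⟩ := exists_le_map ψ (A j) T2 (by rw [h3]; exact Multiset.le_add_right _ _)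
    obtain ⟨T', rfl⟩ := Multiset.le_iff_exists_add.1 h4
    refine ⟨T, T', h2, h5, ?_⟩
    rw [Multiset.map_add, h5] at h3
    exact add_left_cancel h3
  choose T T' hTR hT hT' using hex
  have hTi : ∀ j, (T' j).map i = ((T j).map i).map fun z => (s : ℂ) / z := by
    intro j
    have h1 : Multiset.Rel (fun a b => ψ a = (s : Ω) / ψ b) (T' j) (T j) := by
      have h2 : (T' j).map ψ = (T j).map fun t => (s : Ω) / ψ t := by
        rw [hT' j, ← hT j, Multiset.map_map]
        rfl
      have h3 := Multiset.rel_eq.2 h2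
      rw [Multiset.rel_map] at h3
      exact h3
    have h2 : Multiset.Rel (fun a b => i a = (s : ℂ) / i b) (T' j) (T j) := by
      refine h1.mono ?_
      intro t' ht' t ht h3
      have htR : t ∈ R j := Multiset.mem_of_le ((Multiset.le_add_right _ _).trans (hTR j)) ht
      have htR' : t' ∈ R j := Multiset.mem_of_le ((Multiset.le_add_left _ _).trans (hTR j)) ht'
      have h4 : t' * t - (s : ZBar) = 0 := by
        apply hgood
        · refine Finset.mem_union_right _ (Finset.mem_union_left _ ?_)
          refine Finset.mem_biUnion.2 ⟨j, Finset.mem_univ j, Finset.mem_image.2 ⟨(t', t), ?_, rfl⟩⟩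
          exact Finset.mem_product.2 ⟨Multiset.mem_toFinset.2 htR', Multiset.mem_toFinset.2 htR⟩
        · rw [map_sub, map_mul, h3, div_mul_cancel₀ _ (hψR j t htR), map_natCast, sub_self]
      have h5 : i t ≠ 0 := by
        intro h0
        apply hR0 j t htR
        obtain ⟨μ', r, h6, h7⟩ := exists_int_mul (hR0 j t htR)
        have h8 := congrArg i h7
        rw [map_mul, h0, zero_mul, map_intCast] at h8
        exact absurd (by exact_mod_cast h8.symm) h6
      rw [eq_div_iff h5, ← map_mul, sub_eq_zero.1 h4, map_natCast]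
    have h3 : Multiset.Rel (fun a b => a = b) ((T' j).map i) (((T j).map i).map fun z => (s : ℂ) / z) := by
      rw [Multiset.map_map, Multiset.rel_map]
      exact h2
    exact Multiset.rel_eq.1 h3
  refine ⟨fun j => (T j).map i, fun j => ⟨?_, ?_⟩, ?_⟩
  · show Multiset.card ((T j).map i) = d
    rw [Multiset.card_map, ← (hA j).1, ← hT j, Multiset.card_map]
  · show (T j).map i + ((T j).map i).map (fun z => (s : ℂ) / z) ≤ _
    rw [← hTi j, ← Multiset.map_add, roots_map (hR j) i]
    exact Multiset.map_le_map (hTR j)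
  · have hd : d ≤ B := by
      obtain ⟨j₀⟩ := hJ
      have h1 : d = Multiset.card (T j₀) := by
        rw [← (hA j₀).1, ← hT j₀, Multiset.card_map]
      have h2 : Multiset.card (T j₀) ≤ Multiset.card (R j₀) :=
        Multiset.card_le_card ((Multiset.le_add_right _ _).trans (hTR j₀))
      have h3 : Multiset.card (R j₀) ≤ B :=
        Finset.single_le_sum (f := fun j => Multiset.card (R j)) (fun _ _ => Nat.zero_le _)
          (Finset.mem_univ j₀)
      omega
    have h1 : (∏ j, (T j).prod) ^ (2 * m) - (s : ZBar) ^ (Fintype.card J * d * m) = 0 := by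
      apply hgood
      · refine Finset.mem_union_left _ (Finset.mem_image.2 ⟨(T, d), Finset.mem_product.2
          ⟨?_, Finset.mem_range.2 (by omega)⟩, rfl⟩)
        rw [Fintype.mem_piFinset]
        intro j
        rw [Multiset.mem_toFinset]
        exact Multiset.mem_powerset.2 ((Multiset.le_add_right _ _).trans (hTR j))
      · rw [map_sub, map_pow, map_pow, map_natCast, ← hprod, map_prod, sub_eq_zero]
        congr 1
        refine Finset.prod_congr rfl fun j _ => ?_
        rw [map_multiset_prod, hT]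
    have h2 := congrArg i (sub_eq_zero.1 h1)
    rw [map_pow, map_pow, map_natCast, map_prod] at h2
    rw [← h2]
    congr 1
    refine Finset.prod_congr rfl fun j _ => ?_
    rw [map_multiset_prod]

end Pool.Agent.NH52.SF
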