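import Pool.Agent.NH52.SF.IsoR

/-!
# Primes that split completely, and isotropic stable subspaces
-/

set_option autoImplicit false
set_option linter.unusedSectionVars false

namespace Pool.Agent.NH52.SF

open Module Polynomial NumberField Pool.Agent.Y800 Pool.Agent.R390.SF
open Pool.Agent.Y126.SH (chi)

attribute [local instance] Subgroup.fintypeQuotientOfFiniteIndex

/-- The maximal ideals `v i` of the ring of integers of `F` show that the prime number `p` splits
completely in `F`: they contain `p` and their number is the degree of `F`. -/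
def SplitsInto (F : SubFld ℚ) (p : ℕ) (v : Fin (finrank ℚ F) → Ideal (𝓞 F)) : Prop :=
  Function.Injective v ∧ ∀ i, (v i).IsMaximal ∧ (p : 𝓞 F) ∈ v i

variable {F : SubFld ℚ} [hF : FiniteDimensional ℚ F]

theorem exists_over (𝔭 : Ideal (𝓞 F)) (h𝔭 : 𝔭.IsMaximal) :
    ∃ P : Ideal ZBar, P.IsMaximal ∧ P.under (𝓞 F) = 𝔭 := by
  obtain ⟨P, hP, hPo⟩ := Ideal.exists_maximal_ideal_liesOver_of_isIntegral (S := ZBar) 𝔭
  exact ⟨P, hP, hPo.over.symm⟩

/-- the places above a prime number that splits completely, as cosets -/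
theorem exists_equiv {p : ℕ} (hp : p.Prime) {v : Fin (finrank ℚ F) → Ideal (𝓞 F)}
    (hv : SplitsInto F p v) {P : Ideal ZBar} (hP : P.IsMaximal) (hpP : (p : ZBar) ∈ P) :
    ∃ e : Fin (finrank ℚ F) ≃ (GQ ⧸ F.fixingSubgroup),
      ∀ q, (cj q.out P).under (𝓞 F) = v (e.symm q) := by
  classical
  have h1 : ∀ i, ∃ x : GQ, (cj x P).under (𝓞 F) = v i := by
    intro i
    obtain ⟨Q, hQ, hQv⟩ := exists_over (v i) (hv.2 i).1
    have hpQ : (p : ZBar) ∈ Q := by
      have h2 : (p : 𝓞 F) ∈ Q.under (𝓞 F) := by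
        rw [hQv]
        exact (hv.2 i).2
      rw [mem_under, map_natCast] at h2
      exact h2
    obtain ⟨x, rfl⟩ := exists_cj hp hP hpP hQ hpQ
    exact ⟨x, hQv⟩
  choose x hx using h1
  let f : Fin (finrank ℚ F) → (GQ ⧸ F.fixingSubgroup) := fun i => ((x i : GQ) : GQ ⧸ F.fixingSubgroup)
  have hf : ∀ i, (cj (f i).out P).under (𝓞 F) = v i := fun i => by
    rw [← hx i]
    exact under_out
  have hinj : Function.Injective f := by
    intro i j hij
    apply hv.1
    rw [← hf i, ← hf j, hij]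
  have hbij : Function.Bijective f := by
    refine (Fintype.bijective_iff_injective_and_card f).2 ⟨hinj, ?_⟩
    rw [Fintype.card_fin, card_quot]
  refine ⟨Equiv.ofBijective f hbij, fun q => ?_⟩
  obtain ⟨i, rfl⟩ := hbij.2 q
  rw [hf i]
  congr 1
  exact ((Equiv.ofBijective f hbij).symm_apply_apply i).symm

/-- the Frobenius elements of a prime number that splits completely -/
theorem mem_core {p : ℕ} (hp : p.Prime) {v : Fin (finrank ℚ F) → Ideal (𝓞 F)}
    (hv : SplitsInto F p v) {P : Ideal ZBar} (hP : P.IsMaximal) (hpP : (p : ZBar) ∈ P) {σ : GQ}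
    (hσ : IsGeomFrob p P σ) : σ ∈ (F.fixingSubgroup).normalCore := by
  obtain ⟨e, he⟩ := exists_equiv hp hv hP hpP
  have hcj : cj σ P = P := by
    ext y
    rw [mem_cj]
    exact geom_mem hP hσ hp.ne_zero
  intro b
  have h1 : (cj (Quotient.out (((b⁻¹ : GQ)) : GQ ⧸ F.fixingSubgroup)) P).under (𝓞 F) =
      (cj (Quotient.out (((σ * b⁻¹ : GQ)) : GQ ⧸ F.fixingSubgroup)) P).under (𝓞 F) := by
    rw [under_out, under_out, ← cj_cj, hcj]
  rw [he, he] at h1
  have h2 := e.symm.injective (hv.1 h1)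
  rw [QuotientGroup.eq] at h2
  have h3 : (b⁻¹)⁻¹ * (σ * b⁻¹) = b * σ * b⁻¹ := by group
  rwa [h3] at h2

end Pool.Agent.NH52.SF
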