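import Pool.Agent.NH52.SF.Spl

/-!
# Primes that split completely exist
-/

set_option autoImplicit false
set_option linter.unusedSectionVars false

namespace Pool.Agent.NH52.SF

open Module Polynomial NumberField Pool.Agent.Y800 Pool.Agent.R390.SF

attribute [local instance] Subgroup.fintypeQuotientOfFiniteIndex

variable {F : SubFld ℚ} [hF : FiniteDimensional ℚ F]

/-- the primes with Frobenius elements in the normal core split completely -/
theorem exists_split : ∃ R : Finset ℕ, ∀ p : ℕ, p.Prime → p ∉ R → ∀ P : Ideal ZBar,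
    P.IsMaximal → (p : ZBar) ∈ P → ∀ σ : GQ, IsGeomFrob p P σ → σ ∈ (F.fixingSubgroup).normalCore →
      ∃ v : Fin (finrank ℚ F) → Ideal (𝓞 F), SplitsInto F p v := by
  classical
  refine ⟨(NumberField.discr F).natAbs.primeFactors, ?_⟩
  intro p hp hpR P hP hpP σ hσ hσc
  have hpi : Prime (p : ℤ) := Nat.prime_iff_prime_int.1 hp
  have hdvd : ¬ (p : ℤ) ∣ NumberField.discr F := by
    intro h
    apply hpR
    rw [Nat.mem_primeFactors]
    exact ⟨hp, Int.natCast_dvd.1 h, Int.natAbs_ne_zero.2 (NumberField.discr_ne_zero F)⟩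
  have hunr := (NumberField.not_dvd_discr_iff_forall_mem F (𝓞 F) hpi).1 hdvd
  let I : Ideal ℤ := Ideal.span {(p : ℤ)}
  have hIp : I.IsPrime := (Ideal.span_singleton_prime (by exact_mod_cast hp.ne_zero)).2 hpi
  have hIbot : I ≠ ⊥ := by
    rw [Ne, Ideal.span_singleton_eq_bot]
    exact_mod_cast hp.ne_zero
  have hfin : (I.primesOver (𝓞 F)).Finite := by
    have hmax : I.IsMaximal := hIp.isMaximal hIbot
    have h1 := IsDedekindDomain.coe_primesOverFinset (p := I) (B := 𝓞 F) hIbot
    rw [← h1]
    exact Finset.finite_toSet _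
  have := hfin.fintype
  have hsum := Ideal.sum_ramification_inertia_eq_finrank I (𝓞 F)
  have hmem : ∀ q : I.primesOver (𝓞 F), (p : 𝓞 F) ∈ q.1 := by
    intro q
    have h1 : (p : ℤ) ∈ q.1.under ℤ := by
      rw [← q.2.2.over]
      exact Ideal.mem_span_singleton_self _
    rw [Ideal.under_def, Ideal.mem_comap] at h1
    simpa using h1
  have hne : ∀ q : I.primesOver (𝓞 F), q.1 ≠ ⊥ := by
    intro q h0
    have h1 := hmem q
    rw [h0, Ideal.mem_bot] at h1
    exact hp.ne_zero (by exact_mod_cast h1)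
  have hmax : ∀ q : I.primesOver (𝓞 F), q.1.IsMaximal := fun q => q.2.1.isMaximal (hne q)
  have hone : ∀ q : I.primesOver (𝓞 F), q.1.ramificationIdx ℤ * q.1.inertiaDeg ℤ = 1 := by
    intro q
    have hqp : q.1.IsPrime := q.2.1
    have hql : q.1.LiesOver I := q.2.2
    have hu : Algebra.IsUnramifiedAt ℤ q.1 := hunr q.1 q.2.1 (by exact_mod_cast hmem q)
    have he : q.1.ramificationIdx ℤ = 1 := Ideal.ramificationIdx_eq_one_of_isUnramifiedAt
    have hf : q.1.inertiaDeg ℤ = 1 := by
      obtain ⟨Q, hQ, hQq⟩ := exists_over q.1 (hmax q)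
      have hpQ : (p : ZBar) ∈ Q := by
        have h2 : (p : 𝓞 F) ∈ Q.under (𝓞 F) := by
          rw [hQq]
          exact hmem q
        rw [mem_under, map_natCast] at h2
        exact h2
      obtain ⟨x, rfl⟩ := exists_cj hp hP hpP hQ hpQ
      have h1 := resCard_one (F := F) hp hQ hpQ (core_conj hσc x) (cj_frob hσ)
      unfold resCard at h1
      rw [hQq] at h1
      have hlo : q.1.LiesOver (Ideal.span {(p : ℤ)}) := hql
      have h2 := Ideal.pow_inertiaDeg p q.1
      have h3 : Ideal.absNorm q.1 = p := by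
        rw [Ideal.absNorm_apply]
        exact h1
      rw [h3] at h2
      exact Nat.pow_right_injective hp.two_le (h2.trans (pow_one p).symm)
    rw [he, hf]
  rw [Finset.sum_congr rfl fun q _ => hone q, Finset.sum_const, smul_eq_mul, mul_one,
    Finset.card_univ, RingOfIntegers.rank] at hsum
  let e : Fin (finrank ℚ F) ≃ I.primesOver (𝓞 F) :=
    (Fintype.equivFinOfCardEq hsum).symm
  refine ⟨fun i => (e i).1, fun i j h => e.injective (Subtype.ext h), fun i => ⟨hmax _, hmem _⟩⟩

end Pool.Agent.NH52.SF
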