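import Pool.Agent.NH52.SF.FinG
import Pool.Agent.NH52.SF.NearT
import Pool.Agent.NH52.SF.SplE
import Pool.Agent.Y737.SS.Chara
import Pool.Agent.R932.GR.Art

/-!
# Frobenius elements close to a tangent vector
-/

set_option autoImplicit false
set_option linter.unusedSectionVars false

namespace Pool.Agent.NH52.SF

open Module Matrix Polynomial NumberField Filter Topology Pool.Agent.Y800 Pool.Agent.R390.SF
open Pool.Agent.R390.SF.IntegralSystem
open Pool.Agent.Y126.SH (chi)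
open Pool.Agent.Y142.ZI

attribute [local instance] Subgroup.fintypeQuotientOfFiniteIndex

variable {F : SubFld ℚ} {n : ℕ} {S : Finset ℕ} {w : ℕ} {T : IntegralSystem F n}

/-- the conjugates of an element of the normal core -/
noncomputable def cjEl (q : GQ ⧸ F.fixingSubgroup) (g : (F.fixingSubgroup).normalCore) :
    F.fixingSubgroup := ⟨q.out⁻¹ * (g : GQ) * q.out, core_conj g.2 q.out⟩

/-- The family `X` of matrices is a tangent vector at `1` of the image of the Galois group in the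
product of the conjugates of `V_ℓ`: for elements `s k` of the Galois group (of the Galois closure of `F`)
the matrices of the conjugates `q⁻¹ (s k) q` are `1 + ℓ ^ k X_q` up to smaller terms, for every coset `q`
(every embedding of `F`). -/
def JointTangent (T : IntegralSystem F n) (ℓ : ℕ) [Fact ℓ.Prime]
    (X : (GQ ⧸ F.fixingSubgroup) → Matrix (Fin n) (Fin n) ℚ_[ℓ]) : Prop :=
  ∃ s : ℕ → (F.fixingSubgroup).normalCore, ∀ q, Tendsto (fun k : ℕ =>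
    ((ℓ : ℚ_[ℓ]) ^ k)⁻¹ • ((T.rat ℓ (cjEl q (s k)) : Matrix (Fin n) (Fin n) ℚ_[ℓ]) - 1))
      atTop (𝓝 (X q))

/-- the factor of the similitudes -/
noncomputable def mult (ℓ : ℕ) [Fact ℓ.Prime] (w : ℕ) (g : GQ) : ℚ_[ℓ] :=
  (algebraMap ℤ_[ℓ] ℚ_[ℓ] ((chi ℓ g)⁻¹ : ℤ_[ℓ]ˣ)) ^ w

theorem chi_conj {ℓ : ℕ} [Fact ℓ.Prime] (x g : GQ) : chi ℓ (x⁻¹ * g * x) = chi ℓ g := by
  rw [map_mul, map_mul, map_inv, mul_assoc, mul_comm (chi ℓ g), inv_mul_cancel_left]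

theorem sim_eq {ℓ : ℕ} [Fact ℓ.Prime] {J : Matrix (Fin n) (Fin n) ℤ_[ℓ]}
    (hJ : T.IsPolarization w ℓ J) (g : F.fixingSubgroup) :
    (T.rat ℓ g : Matrix (Fin n) (Fin n) ℚ_[ℓ]).transpose * qm J *
      (T.rat ℓ g : Matrix (Fin n) (Fin n) ℚ_[ℓ]) = mult ℓ w g • qm J := by
  have h1 := congrArg qm (hJ.equivariant g)
  rw [qm_smul, map_mul, map_mul, map_pow] at h1
  have h2 : (algebraMap ℤ_[ℓ] ℚ_[ℓ] (chi ℓ (g : GQ) : ℤ_[ℓ])) ^ w •
      ((T.rat ℓ g : Matrix (Fin n) (Fin n) ℚ_[ℓ]).transpose * qm J *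
        (T.rat ℓ g : Matrix (Fin n) (Fin n) ℚ_[ℓ])) = qm J := h1
  conv_rhs => rw [← h2]
  rw [smul_smul, mult, ← mul_pow, ← map_mul, ← Units.val_mul, inv_mul_cancel, Units.val_one,
    map_one, one_pow, one_smul]

theorem continuous_mult {ℓ : ℕ} [Fact ℓ.Prime] : Continuous (mult ℓ w) := by
  unfold mult
  refine Continuous.pow ?_ w
  refine continuous_coe.comp ?_
  exact Units.continuous_val.comp ((Pool.Agent.Y126.SH.continuous_chi ℓ).inv)

variable [hF : FiniteDimensional ℚ F]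

theorem continuous_cjEl (q : GQ ⧸ F.fixingSubgroup) : Continuous (cjEl (F := F) q) := by
  unfold cjEl
  exact Continuous.subtype_mk (by fun_prop) _

theorem continuous_rat (hT : T.GoodSystem S w) (ℓ : ℕ) [Fact ℓ.Prime] :
    Continuous fun g : F.fixingSubgroup => (T.rat ℓ g : Matrix (Fin n) (Fin n) ℚ_[ℓ]) := by
  have h1 := hT.continuous ℓ
  refine continuous_matrix fun i j => ?_
  have h2 : Continuous fun g : F.fixingSubgroup =>
      (T.rho ℓ g : Matrix (Fin n) (Fin n) ℤ_[ℓ]) i j :=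
    (continuous_apply_apply i j).comp h1
  exact continuous_coe.comp h2

/-- **places without isotropic relations** -/
theorem exists_places' (hn : 0 < n) (hT : T.GoodSystem S w) {ℓ : ℕ} [hℓ : Fact ℓ.Prime]
    {J : Matrix (Fin n) (Fin n) ℤ_[ℓ]} (hJ : T.IsPolarization w ℓ J)
    {X : (GQ ⧸ F.fixingSubgroup) → Matrix (Fin n) (Fin n) ℚ_[ℓ]} (hX : JointTangent T ℓ X)
    {c : ℚ_[ℓ]} (hc : ∀ q, (X q).transpose * qm J + qm J * X q = c • qm J)
    (hno : NoRelT (fun q => (X q).charpoly) c) (𝒯 : Finset ℕ) :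
    ∃ (p : ℕ) (v : Fin (finrank ℚ F) → Ideal (𝓞 F)), p.Prime ∧ p ∉ 𝒯 ∧ SplitsInto F p v ∧
      ∀ d m : ℕ, 0 < d → 0 < m →
        ¬ IsotropicRelation ℂ (fun i => T.poly (v i)) (p ^ w) d m := by
  classical
  obtain ⟨s, hs⟩ := hX
  have hℓ0 : ∀ k : ℕ, ((ℓ : ℚ_[ℓ]) ^ k) ≠ 0 := fun k => pow_ne_zero _
    (by exact_mod_cast hℓ.out.ne_zero)
  have hJ0 : (qm J).det ≠ 0 := by
    rw [qm_det]
    intro h0
    exact hJ.nondegenerate ((FaithfulSMul.algebraMap_injective ℤ_[ℓ] ℚ_[ℓ])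
      (h0.trans (map_zero _).symm))
  obtain ⟨a₀, b₀, hab⟩ : ∃ a b, qm J a b ≠ 0 := by
    by_contra hcon
    push Not at hcon
    have h1 : qm J = 0 := by ext a b; exact hcon a b
    have : Nonempty (Fin n) := ⟨⟨0, hn⟩⟩
    rw [h1, det_zero] at hJ0
    exact hJ0 rfl
  let q₀ : GQ ⧸ F.fixingSubgroup := ((1 : GQ) : GQ ⧸ F.fixingSubgroup)
  let ρ : (GQ ⧸ F.fixingSubgroup) → (F.fixingSubgroup).normalCore →
    Matrix (Fin n) (Fin n) ℚ_[ℓ] := fun q g => (T.rat ℓ (cjEl q g) : Matrix (Fin n) (Fin n) ℚ_[ℓ])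
  have hρc : ∀ q, Continuous (ρ q) := fun q =>
    (continuous_rat hT ℓ).comp (continuous_cjEl q)
  have hsim : ∀ q g, (ρ q g).transpose * qm J * ρ q g = mult ℓ w (g : GQ) • qm J := by
    intro q g
    have h1 := sim_eq hJ (cjEl q g)
    have h2 : mult ℓ w ((cjEl q g : F.fixingSubgroup) : GQ) = mult ℓ w (g : GQ) := by
      unfold mult
      rw [show ((cjEl q g : F.fixingSubgroup) : GQ) = q.out⁻¹ * (g : GQ) * q.out from rfl, chi_conj]
    rw [h2] at h1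
    exact h1
  have hℓt : Tendsto (fun k : ℕ => (ℓ : ℚ_[ℓ]) ^ k) atTop (𝓝 0) := by
    refine tendsto_pow_atTop_nhds_zero_of_norm_lt_one ?_
    rw [Padic.norm_p]
    exact inv_lt_one_of_one_lt₀ (by exact_mod_cast hℓ.out.one_lt)
  have hμt : Tendsto (fun k : ℕ => ((ℓ : ℚ_[ℓ]) ^ k)⁻¹ * (mult ℓ w (s k : GQ) - 1)) atTop
      (𝓝 c) := by
    have hs0 := hs q₀
    have h1 : Tendsto (fun k : ℕ => (ℓ : ℚ_[ℓ]) ^ k •
        ((((ℓ : ℚ_[ℓ]) ^ k)⁻¹ • (ρ q₀ (s k) - 1)).transpose * qm J *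
          (((ℓ : ℚ_[ℓ]) ^ k)⁻¹ • (ρ q₀ (s k) - 1))) +
        ((((ℓ : ℚ_[ℓ]) ^ k)⁻¹ • (ρ q₀ (s k) - 1)).transpose * qm J +
          qm J * (((ℓ : ℚ_[ℓ]) ^ k)⁻¹ • (ρ q₀ (s k) - 1)))) atTop
        (𝓝 ((0 : ℚ_[ℓ]) • ((X q₀).transpose * qm J * X q₀) +
          ((X q₀).transpose * qm J + qm J * X q₀))) := by
      have h2 : Tendsto (fun k : ℕ => (((ℓ : ℚ_[ℓ]) ^ k)⁻¹ • (ρ q₀ (s k) - 1)).transpose) atTop
          (𝓝 (X q₀).transpose) :=
        ((continuous_id.matrix_transpose).tendsto (X q₀)).comp hs0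
      have h3 : Tendsto (fun k : ℕ => (((ℓ : ℚ_[ℓ]) ^ k)⁻¹ • (ρ q₀ (s k) - 1)).transpose * qm J)
          atTop (𝓝 ((X q₀).transpose * qm J)) :=
        ((continuous_id.matrix_mul continuous_const).tendsto (X q₀).transpose).comp h2
      have h4 : Tendsto (fun k : ℕ => qm J * (((ℓ : ℚ_[ℓ]) ^ k)⁻¹ • (ρ q₀ (s k) - 1))) atTop
          (𝓝 (qm J * X q₀)) := ((continuous_const.matrix_mul continuous_id).tendsto (X q₀)).comp hs0
      have h5 : Tendsto (fun k : ℕ => (((ℓ : ℚ_[ℓ]) ^ k)⁻¹ • (ρ q₀ (s k) - 1)).transpose * qm J *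
          (((ℓ : ℚ_[ℓ]) ^ k)⁻¹ • (ρ q₀ (s k) - 1))) atTop
          (𝓝 ((X q₀).transpose * qm J * X q₀)) := h3.mul hs0
      exact (hℓt.smul h5).add (h3.add h4)
    rw [zero_smul, zero_add, hc] at h1
    have h2 := ((continuous_apply_apply a₀ b₀).tendsto (c • qm J)).comp h1
    have h3 := h2.div_const (qm J a₀ b₀)
    rw [Matrix.smul_apply, smul_eq_mul, mul_div_cancel_right₀ _ hab] at h3
    refine h3.congr fun k => ?_
    have h4 : (ℓ : ℚ_[ℓ]) ^ k •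
        ((((ℓ : ℚ_[ℓ]) ^ k)⁻¹ • (ρ q₀ (s k) - 1)).transpose * qm J *
          (((ℓ : ℚ_[ℓ]) ^ k)⁻¹ • (ρ q₀ (s k) - 1))) +
        ((((ℓ : ℚ_[ℓ]) ^ k)⁻¹ • (ρ q₀ (s k) - 1)).transpose * qm J +
          qm J * (((ℓ : ℚ_[ℓ]) ^ k)⁻¹ • (ρ q₀ (s k) - 1))) =
        (((ℓ : ℚ_[ℓ]) ^ k)⁻¹ * (mult ℓ w (s k : GQ) - 1)) • qm J := by
      have h5 := hsim q₀ (s k)
      have h6 : (((ℓ : ℚ_[ℓ]) ^ k)⁻¹ • (ρ q₀ (s k) - 1)).transpose =
          ((ℓ : ℚ_[ℓ]) ^ k)⁻¹ • ((ρ q₀ (s k)).transpose - 1) := by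
        rw [transpose_smul, transpose_sub, transpose_one]
      rw [h6, Matrix.smul_mul, Matrix.smul_mul, Matrix.mul_smul, Matrix.mul_smul, smul_smul,
        smul_smul, mul_inv_cancel₀ (hℓ0 k), one_mul, ← smul_add, ← smul_add, mul_smul]
      congr 1
      rw [sub_smul, one_smul, ← h5]
      noncomm_ring
    show (((ℓ : ℚ_[ℓ]) ^ k •
        ((((ℓ : ℚ_[ℓ]) ^ k)⁻¹ • (ρ q₀ (s k) - 1)).transpose * qm J *
          (((ℓ : ℚ_[ℓ]) ^ k)⁻¹ • (ρ q₀ (s k) - 1))) +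
        ((((ℓ : ℚ_[ℓ]) ^ k)⁻¹ • (ρ q₀ (s k) - 1)).transpose * qm J +
          qm J * (((ℓ : ℚ_[ℓ]) ^ k)⁻¹ • (ρ q₀ (s k) - 1))) :
            Matrix (Fin n) (Fin n) ℚ_[ℓ]) a₀ b₀) / qm J a₀ b₀ = _
    rw [h4, Matrix.smul_apply, smul_eq_mul, mul_div_cancel_right₀ _ hab]
  -- the constants
  obtain ⟨ε, k₁, hε, hkey⟩ := no_relT (fun q => charpoly_monic (X q)) hno
  have hch0 : ∀ q, ∃ (δ : ℝ) (k₂ : ℕ), 0 < δ ∧
      ∀ (k : ℕ) (g : Matrix (Fin n) (Fin n) ℚ_[ℓ]), k₂ ≤ k →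
        (∀ a b, ‖((((ℓ : ℚ_[ℓ]) ^ k)⁻¹ • (g - 1)) - X q) a b‖ < δ) →
        ∀ j, ‖(resc ℓ k g.charpoly - (X q).charpoly).coeff j‖ < ε := fun q =>
    Pool.Agent.Y737.SS.Chara.t ℓ n hn (X q) ε hε
  choose δ k₂ hδ hch using hch0
  have h2 : ∀ᶠ k : ℕ in atTop, ∀ q a b,
      ‖((((ℓ : ℚ_[ℓ]) ^ k)⁻¹ • (ρ q (s k) - 1)) - X q) a b‖ < δ q := by
    rw [eventually_all]
    intro q
    rw [eventually_all]
    intro a
    rw [eventually_all]
    intro b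
    have h2 := ((continuous_apply_apply a b).tendsto (X q)).comp (hs q)
    have h3 := h2.sub_const ((X q) a b)
    rw [sub_self] at h3
    have h4 := h3.norm
    rw [norm_zero] at h4
    exact h4.eventually (gt_mem_nhds (hδ q))
  have h3 : ∀ᶠ k : ℕ in atTop,
      ‖((ℓ : ℚ_[ℓ]) ^ k)⁻¹ * (mult ℓ w (s k : GQ) - 1) - c‖ < ε := by
    have h4 := (hμt.sub_const c).norm
    rw [sub_self, norm_zero] at h4
    exact h4.eventually (gt_mem_nhds hε)
  obtain ⟨k, ⟨hk2, hk3⟩, hkk⟩ := ((h2.and h3).and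
    (eventually_ge_atTop (max k₁ (Finset.univ.sup k₂)))).exists
  -- the open set
  let O₁ : Set (F.fixingSubgroup).normalCore :=
    {g | (∀ q a b, ‖((((ℓ : ℚ_[ℓ]) ^ k)⁻¹ • (ρ q g - 1)) - X q) a b‖ < δ q) ∧
      ‖((ℓ : ℚ_[ℓ]) ^ k)⁻¹ * (mult ℓ w (g : GQ) - 1) - c‖ < ε}
  have hO₁ : IsOpen O₁ := by
    have h3 : O₁ = (⋂ q, ⋂ a, ⋂ b, {g | ‖((((ℓ : ℚ_[ℓ]) ^ k)⁻¹ • (ρ q g - 1)) - X q) a b‖ < δ q}) ∩
        {g | ‖((ℓ : ℚ_[ℓ]) ^ k)⁻¹ * (mult ℓ w (g : GQ) - 1) - c‖ < ε} := by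
      ext g
      simp only [Set.mem_inter_iff, Set.mem_iInter]
      rfl
    rw [h3]
    refine IsOpen.inter ?_ ?_
    · refine isOpen_iInter_of_finite fun q => isOpen_iInter_of_finite fun a =>
        isOpen_iInter_of_finite fun b => ?_
      have h4 : Continuous fun g => ((((ℓ : ℚ_[ℓ]) ^ k)⁻¹ • (ρ q g - 1)) - X q) a b := by
        have h7 : Continuous fun g => ρ q g - 1 := (hρc q).sub continuous_const
        have h8 : Continuous fun g => ((ℓ : ℚ_[ℓ]) ^ k)⁻¹ • (ρ q g - 1) :=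
          Continuous.const_smul h7 (((ℓ : ℚ_[ℓ]) ^ k)⁻¹)
        exact (continuous_apply_apply a b).comp (h8.sub continuous_const)
      exact isOpen_lt h4.norm continuous_const
    · exact isOpen_lt ((continuous_const.mul ((continuous_mult.comp
        continuous_subtype_val).sub continuous_const)).sub continuous_const).norm continuous_const
  have hcore : IsOpen ((F.fixingSubgroup).normalCore : Set GQ) := isOpen_core (isOpen_F F)
  let O : Set GQ := Subtype.val '' O₁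
  have hO : IsOpen O := hcore.isOpenMap_subtype_val _ hO₁
  have hsO : (s k : GQ) ∈ O := ⟨s k, ⟨hk2, hk3⟩, rfl⟩
  have hW : IsOpen {g : GQ | g * (s k : GQ) ∈ O} := hO.preimage (by fun_prop)
  have h1W : (1 : GQ) ∈ {g : GQ | g * (s k : GQ) ∈ O} := by
    show 1 * (s k : GQ) ∈ O
    rw [one_mul]
    exact hsO
  obtain ⟨U, hU⟩ := ProfiniteGrp.exist_openNormalSubgroup_sub_open_nhds_of_one hW h1W
  have hUo : IsOpen (U.toSubgroup : Set GQ) := U.isOpen'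
  haveI : U.toSubgroup.Normal := U.isNormal'
  obtain ⟨R, hR⟩ := exists_split (F := F)
  obtain ⟨p, hp, hpR, P, hP, hpP, σ, hσ, τ, hτ⟩ :=
    exists_frob U.toSubgroup hUo ((R ∪ S) ∪ (𝒯 ∪ {ℓ})) (s k : GQ)
  simp only [Finset.mem_union, Finset.mem_singleton, not_or] at hpR
  obtain ⟨⟨hpR, hpS⟩, hpT, hpℓ⟩ := hpR
  have hpℓ' : ℓ ≠ p := fun h => hpℓ h.symm
  have hgO : τ * σ * τ⁻¹ ∈ O := by
    have h1 : τ * σ * τ⁻¹ * (s k : GQ)⁻¹ * (s k : GQ) ∈ O := hU hτ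
    rwa [inv_mul_cancel_right] at h1
  obtain ⟨g, ⟨hg1, hg2⟩, hgeq⟩ := hgO
  have hgF : IsGeomFrob p (cj τ⁻¹ P) (g : GQ) := by
    have h1 := cj_frob (x := τ⁻¹) hσ
    rw [inv_inv, ← hgeq] at h1
    exact h1
  set P' := cj τ⁻¹ P with hP'
  have hP'm : P'.IsMaximal := cj_max hP
  have hpP' : (p : ZBar) ∈ P' := cj_nat.2 hpP
  obtain ⟨v, hv⟩ := hR p hp hpR P' hP'm hpP' (g : GQ) hgF g.2
  obtain ⟨e, he⟩ := exists_equiv hp hv hP'm hpP'
  refine ⟨p, v, hp, hpT, hv, fun d m hd hm hrel => ?_⟩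
  obtain ⟨A, hA, hprod⟩ := hrel
  obtain ⟨ε'⟩ := Pool.Agent.R932.GR.embC ℓ
  let η : Lb ℓ ≃+* ℂ := ε'
  -- the multiplier
  have hmul : mult ℓ w (g : GQ) = (p : ℚ_[ℓ]) ^ w := by
    unfold mult
    congr 1
    have h1 := Pool.Agent.Y126.SH.chi_frob hp hpℓ' hP'm hpP' hgF
    have h2 : (((chi ℓ (g : GQ))⁻¹ : ℤ_[ℓ]ˣ) : ℤ_[ℓ]) = (p : ℤ_[ℓ]) := by
      have h3 := congrArg (fun z => (((chi ℓ (g : GQ))⁻¹ : ℤ_[ℓ]ˣ) : ℤ_[ℓ]) * z) h1
      simp only [mul_one] at h3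
      rw [← mul_assoc, ← Units.val_mul, inv_mul_cancel, Units.val_one, one_mul] at h3
      exact h3.symm
    rw [h2, map_natCast]
  have hs1 : algebraMap ℚ_[ℓ] (Lb ℓ) (mult ℓ w (g : GQ)) = ((p ^ w : ℕ) : Lb ℓ) := by
    rw [hmul, map_pow, map_natCast, Nat.cast_pow]
  -- the polynomials
  have hcp : ∀ q, (ρ q g).charpoly = (T.poly (v (e.symm q))).map (Int.castRingHom ℚ_[ℓ]) := by
    intro q
    have h1 := charpoly_frob_rat hT hp hpS hpℓ' (P := cj q.out P') (cj_max hP'm)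
      (cj_nat.2 hpP') (σ := cjEl q g) (cj_frob hgF)
    rw [he q] at h1
    exact h1
  have hroots : ∀ q, ((T.poly (v (e.symm q))).map (Int.castRingHom ℂ)).roots.map η.symm =
      ((ρ q g).charpoly.map (algebraMap ℚ_[ℓ] (Lb ℓ))).roots := by
    intro q
    rw [hcp, Polynomial.map_map]
    have h4 : (T.poly (v (e.symm q))).map (Int.castRingHom ℂ) =
        ((T.poly (v (e.symm q))).map ((algebraMap ℚ_[ℓ] (Lb ℓ)).comp
          (Int.castRingHom ℚ_[ℓ]))).map (η : Lb ℓ →+* ℂ) := by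
      rw [Polynomial.map_map]
      congr 1
      exact Subsingleton.elim _ _
    rw [h4, (IsAlgClosed.splits _).roots_map, Multiset.map_map]
    have h5 : (η.symm : ℂ → Lb ℓ) ∘ ((η : Lb ℓ →+* ℂ) : Lb ℓ → ℂ) = id := by
      funext x
      exact η.symm_apply_apply x
    rw [h5, Multiset.map_id]
  refine hkey k (fun q => (ρ q g).charpoly) (mult ℓ w (g : GQ)) ((le_max_left _ _).trans hkk)
    (fun q => ⟨charpoly_monic _, by rw [charpoly_natDegree_eq_dim, charpoly_natDegree_eq_dim],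
      hch q k (ρ q g) ((Finset.le_sup (Finset.mem_univ q)).trans ((le_max_right _ _).trans hkk))
        (hg1 q)⟩) hg2 (fun q => (A (e.symm q)).map η.symm) m ?_ hm ?_ ?_
  · refine ⟨q₀, ?_⟩
    rw [← Multiset.card_pos, Multiset.card_map, (hA _).1]
    exact hd
  · intro q
    have h2 := Multiset.map_le_map (f := η.symm) (hA (e.symm q)).2
    rw [hroots q, Multiset.map_add] at h2
    convert h2 using 2
    rw [Multiset.map_map, Multiset.map_map]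
    refine Multiset.map_congr rfl fun z _ => ?_
    simp only [Function.comp_apply]
    rw [map_div₀, map_natCast, hs1]
  · have h2 := congrArg η.symm hprod
    rw [map_pow, map_pow, map_natCast, map_prod] at h2
    have h3 : ∏ q, ((A (e.symm q)).map η.symm).prod = ∏ j, η.symm (A j).prod := by
      rw [← e.symm.prod_comp fun j => η.symm (A j).prod]
      refine Finset.prod_congr rfl fun q _ => ?_
      rw [map_multiset_prod]
    have h4 : ∑ q : GQ ⧸ F.fixingSubgroup, ((A (e.symm q)).map η.symm).card =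
        Fintype.card (Fin (finrank ℚ F)) * d := by
      rw [Finset.sum_congr rfl fun q _ => (Multiset.card_map _ _).trans (hA (e.symm q)).1,
        Finset.sum_const, Finset.card_univ, card_quot, smul_eq_mul, Fintype.card_fin]
    rw [h3, h2, hs1, h4]

end Pool.Agent.NH52.SF
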